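import Pool.Agent.H42Sch.Half

set_option autoImplicit false
set_option linter.unusedSectionVars false
set_option linter.unusedSimpArgs false
set_option linter.unnecessarySimpa false

namespace H42Sch

variable {α : Type} [DecidableEq α]

/-- coefficient function of a noncommutative polynomial -/
noncomputable def fn (x : MonoidAlgebra ℤ (FreeMonoid α)) : List α → ℤ :=
  fun w => x.coeff (FreeMonoid.ofList w)

lemma fn_apply (x : MonoidAlgebra ℤ (FreeMonoid α)) (w : List α) :
    fn x w = x.coeff (FreeMonoid.ofList w) := rfl

lemma fn_add (x y : MonoidAlgebra ℤ (FreeMonoid α)) (w : List α) : fn (x + y) w = fn x w + fn y w := by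
  simp [fn]
lemma fn_sub (x y : MonoidAlgebra ℤ (FreeMonoid α)) (w : List α) : fn (x - y) w = fn x w - fn y w := by
  simp [fn]
lemma fn_neg (x : MonoidAlgebra ℤ (FreeMonoid α)) (w : List α) : fn (-x) w = - fn x w := by
  simp [fn]
lemma fn_zero (w : List α) : fn (0 : MonoidAlgebra ℤ (FreeMonoid α)) w = 0 := by
  simp [fn]
lemma fn_single (u : FreeMonoid α) (r : ℤ) (w : List α) :
    fn (MonoidAlgebra.single u r) w = if w = FreeMonoid.toList u then r else 0 := by
  classical
  rw [fn, MonoidAlgebra.coeff_single, Finsupp.single_apply]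
  by_cases h : w = FreeMonoid.toList u
  · rw [if_pos h, if_pos]
    rw [h]; rfl
  · rw [if_neg h, if_neg]
    intro h'
    apply h
    rw [h']; rfl
lemma fn_one (w : List α) : fn (1 : MonoidAlgebra ℤ (FreeMonoid α)) w = if w = [] then 1 else 0 := by
  rw [MonoidAlgebra.one_def, fn_single]; rfl
lemma fn_of (u : FreeMonoid α) (w : List α) :
    fn (MonoidAlgebra.of ℤ (FreeMonoid α) u) w = if w = FreeMonoid.toList u then 1 else 0 := by
  rw [MonoidAlgebra.of_apply, fn_single]

lemma fn_ext {x y : MonoidAlgebra ℤ (FreeMonoid α)} (h : ∀ w, fn x w = fn y w) : x = y := by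
  ext w
  exact h (FreeMonoid.toList w)

lemma fn_sum {ι : Type} (s : Finset ι) (f : ι → MonoidAlgebra ℤ (FreeMonoid α)) (w : List α) :
    fn (∑ i ∈ s, f i) w = ∑ i ∈ s, fn (f i) w := by
  classical
  induction s using Finset.induction_on with
  | empty => simp [fn_zero]
  | insert i s hi ih => rw [Finset.sum_insert hi, Finset.sum_insert hi, fn_add, ih]

open scoped Classical in
lemma fn_sum_of (C : Finset (FreeMonoid α)) (w : List α) :
    fn (∑ x ∈ C, MonoidAlgebra.of ℤ (FreeMonoid α) x) w =
      if FreeMonoid.ofList w ∈ C then 1 else 0 := by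
  rw [fn_sum]
  have : ∀ x ∈ C, fn (MonoidAlgebra.of ℤ (FreeMonoid α) x) w =
      if FreeMonoid.ofList w = x then 1 else 0 := by
    intro x _
    rw [fn_of]
    by_cases h : w = FreeMonoid.toList x
    · rw [if_pos h, if_pos]
      rw [h]; rfl
    · rw [if_neg h, if_neg]
      intro h'
      apply h
      rw [← h']; rfl
  rw [Finset.sum_congr rfl this, Finset.sum_ite_eq]

lemma conv_add_left (w : List α) (P P' Q : List α → ℤ) :
    conv w (fun u => P u + P' u) Q = conv w P Q + conv w P' Q := by
  induction w generalizing P P' with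
  | nil => simp [conv, add_mul]
  | cons x w ih => simp only [conv, ih]; ring

lemma conv_add_right (w : List α) (P Q Q' : List α → ℤ) :
    conv w P (fun u => Q u + Q' u) = conv w P Q + conv w P Q' := by
  induction w generalizing P with
  | nil => simp [conv, mul_add]
  | cons x w ih => simp only [conv, ih]; ring

lemma conv_zero_left (w : List α) (Q : List α → ℤ) : conv w (fun _ => 0) Q = 0 :=
  conv_congr_zero w _ Q (fun _ => rfl)

lemma conv_zero_right (w : List α) (P : List α → ℤ) : conv w P (fun _ => 0) = 0 := by
  induction w generalizing P with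
  | nil => simp [conv]
  | cons x w ih => simp only [conv, ih]; ring

lemma conv_single (w u v : List α) (r s : ℤ) :
    conv w (fun t => if t = u then r else 0) (fun t => if t = v then s else 0) =
      if w = u ++ v then r * s else 0 := by
  induction w generalizing u with
  | nil =>
    cases u with
    | nil => cases v <;> simp [conv]
    | cons y u => simp [conv]
  | cons x w ih =>
    cases u with
    | nil =>
      simp only [conv]
      rw [conv_congr_zero w (fun t => if x :: t = [] then r else 0)]
      · simp
      · intro t; simp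
    | cons y u =>
      simp only [conv]
      by_cases hxy : x = y
      · subst hxy
        have : (fun t => if x :: t = x :: u then r else 0) = fun t => if t = u then r else 0 := by
          ext t; simp
        rw [this, ih]
        simp
      · rw [conv_congr_zero w (fun t => if x :: t = y :: u then r else 0)]
        · simp [hxy]
        · intro t; simp [hxy]

lemma fn_mul (x y : MonoidAlgebra ℤ (FreeMonoid α)) (w : List α) :
    fn (x * y) w = conv w (fn x) (fn y) := by
  induction x using MonoidAlgebra.induction_linear with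
  | zero =>
    rw [zero_mul, fn_zero]
    have : fn (0 : MonoidAlgebra ℤ (FreeMonoid α)) = fun _ => 0 := by ext; rw [fn_zero]
    rw [this, conv_zero_left]
  | add x x' hx hx' =>
    rw [add_mul, fn_add, hx, hx', ← conv_add_left]
    congr 1
  | single u r =>
    induction y using MonoidAlgebra.induction_linear with
    | zero =>
      rw [mul_zero, fn_zero]
      have : fn (0 : MonoidAlgebra ℤ (FreeMonoid α)) = fun _ => 0 := by ext; rw [fn_zero]
      rw [this, conv_zero_right]
    | add y y' hy hy' =>
      rw [mul_add, fn_add, hy, hy', ← conv_add_right]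
      congr 1
    | single v s =>
      rw [MonoidAlgebra.single_mul_single, fn_single]
      have h1 : fn (MonoidAlgebra.single u r) = fun t => if t = FreeMonoid.toList u then r else 0 := by
        ext t; rw [fn_single]
      have h2 : fn (MonoidAlgebra.single v s) = fun t => if t = FreeMonoid.toList v then s else 0 := by
        ext t; rw [fn_single]
      rw [h1, h2, conv_single]
      rfl

variable [Fintype α]

/-- the alphabet polynomial -/
noncomputable def Alph (α : Type) [Fintype α] : MonoidAlgebra ℤ (FreeMonoid α) :=
  ∑ a : α, MonoidAlgebra.of ℤ (FreeMonoid α) (FreeMonoid.of a)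

lemma conv_delta (w : List α) (Q : List α → ℤ) :
    conv w (fun t => if t = [] then 1 else 0) Q = Q w := by
  cases w with
  | nil => simp [conv]
  | cons x w =>
    rw [conv, conv_congr_zero w]
    · simp
    · intro u; simp

lemma fn_Alph (w : List α) : fn (Alph α) w = if w.length = 1 then 1 else 0 := by
  rw [Alph, fn_sum]
  have : ∀ a : α, fn (MonoidAlgebra.of ℤ (FreeMonoid α) (FreeMonoid.of a)) w =
      if w = [a] then 1 else 0 := by
    intro a; rw [fn_of]; rfl
  simp_rw [this]
  rcases w with _ | ⟨x, _ | ⟨y, w⟩⟩
  · simp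
  · simp
  · simp

lemma fn_R (S : MonoidAlgebra ℤ (FreeMonoid α)) :
    fn ((Alph α - 1) * S) = R (fn S) := by
  ext w
  rw [fn_mul]
  cases w with
  | nil =>
    rw [conv, fn_sub, fn_Alph, fn_one, R]
    simp
  | cons x t =>
    rw [conv, fn_sub, fn_Alph, fn_one, R]
    have : (fun u => fn (Alph α - 1) (x :: u)) = fun u => if u = [] then 1 else 0 := by
      ext u
      rw [fn_sub, fn_Alph, fn_one]
      cases u <;> simp
    rw [this, conv_delta]
    simp
    ring

/-- words are reversed -/
noncomputable def rev (x : MonoidAlgebra ℤ (FreeMonoid α)) : MonoidAlgebra ℤ (FreeMonoid α) :=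
  MonoidAlgebra.ofCoeff (Finsupp.mapDomain FreeMonoid.reverse x.coeff)

lemma rev_add (x y : MonoidAlgebra ℤ (FreeMonoid α)) : rev (x + y) = rev x + rev y := by
  simp [rev, Finsupp.mapDomain_add]
lemma rev_zero : rev (0 : MonoidAlgebra ℤ (FreeMonoid α)) = 0 := by
  simp [rev]
lemma rev_single (u : FreeMonoid α) (r : ℤ) :
    rev (MonoidAlgebra.single u r) = MonoidAlgebra.single (FreeMonoid.reverse u) r := by
  simp [rev]
lemma rev_neg (x : MonoidAlgebra ℤ (FreeMonoid α)) : rev (-x) = - rev x := by
  have h := rev_add x (-x)
  rw [add_neg_cancel, rev_zero] at h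
  exact eq_neg_of_add_eq_zero_right h.symm
lemma rev_sub (x y : MonoidAlgebra ℤ (FreeMonoid α)) : rev (x - y) = rev x - rev y := by
  rw [sub_eq_add_neg, rev_add, rev_neg, sub_eq_add_neg]
lemma rev_one : rev (1 : MonoidAlgebra ℤ (FreeMonoid α)) = 1 := by
  rw [MonoidAlgebra.one_def, rev_single]; rfl
lemma rev_of (u : FreeMonoid α) : rev (MonoidAlgebra.of ℤ (FreeMonoid α) u) =
    MonoidAlgebra.of ℤ (FreeMonoid α) (FreeMonoid.reverse u) := by
  rw [MonoidAlgebra.of_apply, rev_single, MonoidAlgebra.of_apply]
lemma rev_sum {ι : Type} (s : Finset ι) (f : ι → MonoidAlgebra ℤ (FreeMonoid α)) :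
    rev (∑ i ∈ s, f i) = ∑ i ∈ s, rev (f i) := by
  classical
  induction s using Finset.induction_on with
  | empty => simp [rev_zero]
  | insert i s hi ih => rw [Finset.sum_insert hi, Finset.sum_insert hi, rev_add, ih]

lemma rev_mul (x y : MonoidAlgebra ℤ (FreeMonoid α)) : rev (x * y) = rev y * rev x := by
  induction x using MonoidAlgebra.induction_linear with
  | zero => simp [rev_zero]
  | add x x' hx hx' => rw [add_mul, rev_add, hx, hx', rev_add, mul_add]
  | single u r =>
    induction y using MonoidAlgebra.induction_linear with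
    | zero => simp [rev_zero]
    | add y y' hy hy' => rw [mul_add, rev_add, hy, hy', rev_add, add_mul]
    | single v s =>
      rw [MonoidAlgebra.single_mul_single, rev_single, rev_single, rev_single,
        MonoidAlgebra.single_mul_single, FreeMonoid.reverse_mul, mul_comm s r]

lemma rev_Alph : rev (Alph α) = Alph α := by
  rw [Alph, rev_sum]
  apply Finset.sum_congr rfl
  intro a _
  rw [rev_of]; rfl

lemma reverse_injective : Function.Injective (FreeMonoid.reverse : FreeMonoid α → FreeMonoid α) := by
  intro x y h
  rw [← FreeMonoid.reverse_reverse (a := x), h, FreeMonoid.reverse_reverse]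

lemma fn_rev (x : MonoidAlgebra ℤ (FreeMonoid α)) (w : List α) : fn (rev x) w = fn x w.reverse := by
  have h := Finsupp.mapDomain_apply (f := (FreeMonoid.reverse : FreeMonoid α → FreeMonoid α))
    reverse_injective x.coeff (FreeMonoid.ofList w.reverse)
  rw [fn, rev, fn]
  have h2 : FreeMonoid.reverse (FreeMonoid.ofList w.reverse) = FreeMonoid.ofList w := by
    have : FreeMonoid.ofList w.reverse = FreeMonoid.reverse (FreeMonoid.ofList w) := rfl
    rw [this, FreeMonoid.reverse_reverse]
  rw [h2] at h
  exact h

/-! ### zero-one coefficients -/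

lemma conv_nonneg (w : List α) (P Q : List α → ℤ) (hP : ∀ u, 0 ≤ P u) (hQ : ∀ u, 0 ≤ Q u) :
    0 ≤ conv w P Q := by
  induction w generalizing P with
  | nil => exact mul_nonneg (hP _) (hQ _)
  | cons x w ih =>
    rw [conv]
    exact add_nonneg (mul_nonneg (hP _) (hQ _)) (ih _ (fun u => hP _))

lemma conv_ge_left (w : List α) (P Q : List α → ℤ) (hP : ∀ u, 0 ≤ P u) (hQ : ∀ u, 0 ≤ Q u) :
    P w * Q [] ≤ conv w P Q := by
  induction w generalizing P with
  | nil => exact le_rfl
  | cons x w ih =>
    rw [conv]
    have h1 := ih (fun u => P (x :: u)) (fun u => hP _)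
    have h2 := mul_nonneg (hP []) (hQ (x :: w))
    linarith

lemma conv_ge_right (w : List α) (P Q : List α → ℤ) (hP : ∀ u, 0 ≤ P u) (hQ : ∀ u, 0 ≤ Q u) :
    P [] * Q w ≤ conv w P Q := by
  cases w with
  | nil => exact le_rfl
  | cons x w =>
    rw [conv]
    have h1 := conv_nonneg w (fun u => P (x :: u)) Q (fun u => hP _) hQ
    linarith

lemma conv_short (w : List α) (P F : List α → ℤ) (hF : ∀ v, v.length < w.length → F v = 0) :
    conv w P F = P [] * F w := by
  have hz : ∀ (v : List α) (Q : List α → ℤ), v.length < w.length → conv v Q F = 0 := by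
    intro v
    induction v with
    | nil => intro Q hv; rw [conv, hF _ hv, mul_zero]
    | cons x v ih =>
      intro Q hv
      rw [conv, hF _ hv, ih]
      · ring
      · simp at hv; omega
  cases w with
  | nil => rfl
  | cons x w =>
    rw [conv, hz w _ (by simp), add_zero]

lemma conv_eq_zero_imp (P F : List α → ℤ) (M : ℕ) (hP : P [] = 1)
    (h : ∀ w : List α, w.length < M → conv w P F = 0) : ∀ w : List α, w.length < M → F w = 0 := by
  have key : ∀ k (w : List α), w.length ≤ k → w.length < M → F w = 0 := by
    intro k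
    induction k with
    | zero =>
      intro w hk hw
      have := conv_short w P F (fun v hv => by omega)
      rw [h w hw, hP] at this
      linarith
    | succ k ih =>
      intro w hk hw
      have := conv_short w P F (fun v hv => ih v (by omega) (by omega))
      rw [h w hw, hP] at this
      linarith
  intro w hw
  exact key w.length w le_rfl hw

lemma conv_vanish (P F : List α → ℤ) (k : ℕ) (hF : ∀ w : List α, w.length < k → F w = 0)
    (hP : P [] = 0) : ∀ w : List α, w.length < k + 1 → conv w P F = 0 := by
  have hz : ∀ (v : List α) (Q : List α → ℤ), v.length < k → conv v Q F = 0 := by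
    intro v
    induction v with
    | nil => intro Q hv; rw [conv, hF _ hv, mul_zero]
    | cons x v ih =>
      intro Q hv
      rw [conv, hF _ hv, ih]
      · ring
      · simp at hv; omega
  intro w hw
  cases w with
  | nil => rw [conv, hP, zero_mul]
  | cons x w =>
    rw [conv, hP, hz w _ (by simp at hw; omega)]
    ring

/-- nonnegative coefficients -/
def NN (x : MonoidAlgebra ℤ (FreeMonoid α)) : Prop := ∀ w, 0 ≤ fn x w

lemma NN.mul {x y : MonoidAlgebra ℤ (FreeMonoid α)} (hx : NN x) (hy : NN y) : NN (x * y) := by
  intro w; rw [fn_mul]; exact conv_nonneg _ _ _ hx hy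
lemma NN.add {x y : MonoidAlgebra ℤ (FreeMonoid α)} (hx : NN x) (hy : NN y) : NN (x + y) := by
  intro w; rw [fn_add]; exact add_nonneg (hx w) (hy w)
lemma NN.one : NN (1 : MonoidAlgebra ℤ (FreeMonoid α)) := by
  intro w; rw [fn_one]; split_ifs <;> norm_num
lemma NN.pow {x : MonoidAlgebra ℤ (FreeMonoid α)} (hx : NN x) (k : ℕ) : NN (x ^ k) := by
  induction k with
  | zero => rw [pow_zero]; exact NN.one
  | succ k ih => rw [pow_succ]; exact ih.mul hx
lemma NN.geom {x : MonoidAlgebra ℤ (FreeMonoid α)} (hx : NN x) (k : ℕ) :
    NN (∑ i ∈ Finset.range k, x ^ i) := by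
  intro w
  rw [fn_sum]
  exact Finset.sum_nonneg (fun i _ => hx.pow i w)

/-- nonnegative factorizations have coefficients at most one -/
lemma le_one_of_nonneg {c P S : MonoidAlgebra ℤ (FreeMonoid α)}
    (hc : NN c) (hc0 : fn c [] = 0) (hP : NN P) (hS : NN S) (hP0 : fn P [] = 1) (hS0 : fn S [] = 1)
    (E : c - 1 = P * (Alph α - 1) * S) :
    (∀ w, fn P w ≤ 1) ∧ (∀ w, fn S w ≤ 1) := by
  have key : ∀ w, fn (S * P) w ≤ 1 := by
    intro w
    set M := w.length + 1 with hM
    set G := ∑ i ∈ Finset.range M, c ^ i with hG
    set Z := S * G * P with hZ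
    have e1 : P * ((Alph α - 1) * Z + 1) = c ^ M * P := by
      have e2 : P * (Alph α - 1) * S * G * P = (c - 1) * G * P := by rw [← E]
      have e3 : (c - 1) * G = c ^ M - 1 := mul_geom_sum c M
      have e4 : P * ((Alph α - 1) * Z + 1) = P * (Alph α - 1) * S * G * P + P := by
        rw [hZ]; noncomm_ring
      rw [e4, e2, e3]; noncomm_ring
    have hcM : ∀ k, ∀ v : List α, v.length < k → fn (c ^ k * P) v = 0 := by
      intro k
      induction k with
      | zero => intro v hv; omega
      | succ k ih =>
        intro v hv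
        rw [pow_succ', mul_assoc, fn_mul]
        exact conv_vanish _ _ k ih hc0 v hv
    have h1 : ∀ v : List α, v.length < M → fn ((Alph α - 1) * Z + 1) v = 0 := by
      apply conv_eq_zero_imp (fn P) _ M hP0
      intro v hv
      rw [← fn_mul, e1]
      exact hcM M v hv
    have h2 : ∀ v : List α, v.length < M → fn Z v = 1 := by
      intro v
      induction v with
      | nil =>
        intro hv
        have := h1 [] hv
        rw [fn_add, fn_R, fn_one, R] at this
        simp at this
        linarith
      | cons x v ih =>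
        intro hv
        have h3 := h1 (x :: v) hv
        rw [fn_add, fn_R, fn_one, R] at h3
        simp at h3
        have h4 := ih (by simp at hv; omega)
        linarith
    have h3 : fn (S * P) w ≤ fn Z w := by
      have e5 : G = 1 + c * ∑ i ∈ Finset.range w.length, c ^ i := by
        rw [hG, hM, Finset.sum_range_succ', Finset.mul_sum]
        simp_rw [pow_succ']
        rw [pow_zero, add_comm]
      have e6 : Z = S * P + S * (c * ∑ i ∈ Finset.range w.length, c ^ i) * P := by
        rw [hZ, e5]; noncomm_ring
      have h5 : NN (S * (c * ∑ i ∈ Finset.range w.length, c ^ i) * P) :=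
        (hS.mul (hc.mul (hc.geom _))).mul hP
      rw [e6, fn_add]
      have := h5 w
      linarith
    rw [h2 w (by omega)] at h3
    exact h3
  constructor
  · intro w
    have h1 := key w
    rw [fn_mul] at h1
    have h2 := conv_ge_right w (fn S) (fn P) hS hP
    rw [hS0] at h2
    linarith
  · intro w
    have h1 := key w
    rw [fn_mul] at h1
    have h2 := conv_ge_left w (fn S) (fn P) hS hP
    rw [hP0] at h2
    linarith

/-- zero-one polynomials are sums over finite sets -/
lemma eq_sum_of_zero_one (x : MonoidAlgebra ℤ (FreeMonoid α)) (h0 : NN x) (h1 : ∀ w, fn x w ≤ 1) :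
    ∃ s : Finset (FreeMonoid α), x = ∑ u ∈ s, MonoidAlgebra.of ℤ (FreeMonoid α) u := by
  refine ⟨x.coeff.support, ?_⟩
  apply fn_ext
  intro w
  rw [fn_sum_of]
  by_cases hw : FreeMonoid.ofList w ∈ x.coeff.support
  · rw [if_pos hw]
    rw [Finsupp.mem_support_iff] at hw
    have e1 := h0 w
    have e2 := h1 w
    rw [fn] at *
    omega
  · rw [if_neg hw]
    rw [Finsupp.notMem_support_iff] at hw
    exact hw

/-- a finite length bound -/
lemma exists_bound (x : MonoidAlgebra ℤ (FreeMonoid α)) :
    ∃ N, ∀ w : List α, N ≤ w.length → fn x w = 0 := by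
  refine ⟨x.coeff.support.sup (fun u => (FreeMonoid.toList u).length) + 1, ?_⟩
  intro w hw
  by_contra hne
  have hmem : FreeMonoid.ofList w ∈ x.coeff.support := by
    rw [Finsupp.mem_support_iff]; exact hne
  have := Finset.le_sup (f := fun u : FreeMonoid α => (FreeMonoid.toList u).length) hmem
  simp only [FreeMonoid.toList_ofList] at this
  omega

end H42Sch
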