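import Mathlib

set_option autoImplicit false
set_option linter.unusedSectionVars false
set_option linter.unusedSimpArgs false
set_option linter.unnecessarySimpa false

namespace H42Sch

open PowerSeries

variable {α : Type} [DecidableEq α]

/-- coefficient function of `(A - 1) S` -/
def R (S : List α → ℤ) : List α → ℤ
  | [] => - S []
  | (x :: t) => S t - S (x :: t)

/-- coefficient function of a product -/
def conv : List α → (List α → ℤ) → (List α → ℤ) → ℤ
  | [], P, Q => P [] * Q []
  | (x :: w), P, Q => P [] * Q (x :: w) + conv w (fun u => P (x :: u)) Q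

/-- number of letters different from `a` -/
def lv (a : α) : List α → ℕ
  | [] => 0
  | (x :: w) => lv a w + if x = a then 0 else 1

/-- drop the constant coefficient -/
noncomputable def shift (V : ℤ⟦X⟧) : ℤ⟦X⟧ := PowerSeries.mk fun n => coeff (n+1) V

/-- coefficient function of `V(a) Q` -/
noncomputable def theta (a : α) : List α → ℤ⟦X⟧ → (List α → ℤ) → ℤ
  | [], V, Q => coeff 0 V * Q []
  | (x :: w), V, Q => coeff 0 V * Q (x :: w) + if x = a then theta a w (shift V) Q else 0

/-- `a^l` -/
def aw (a : α) (l : ℕ) : List α := List.replicate l a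

/-- `a^l b w` -/
def abw (a b : α) (l : ℕ) (w : List α) : List α := List.replicate l a ++ b :: w

@[simp] lemma aw_zero (a : α) : aw a 0 = [] := rfl
lemma aw_succ (a : α) (l : ℕ) : aw a (l+1) = a :: aw a l := rfl
@[simp] lemma abw_zero (a b : α) (w : List α) : abw a b 0 w = b :: w := rfl
lemma abw_succ (a b : α) (l : ℕ) (w : List α) : abw a b (l+1) w = a :: abw a b l w := rfl

@[simp] lemma aw_length (a : α) (l : ℕ) : (aw a l).length = l := by simp [aw]
@[simp] lemma abw_length (a b : α) (l : ℕ) (w : List α) :
    (abw a b l w).length = l + w.length + 1 := by simp [abw]; omega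

@[simp] lemma lv_nil (a : α) : lv a ([] : List α) = 0 := rfl
lemma lv_cons_self (a : α) (w : List α) : lv a (a :: w) = lv a w := by simp [lv]
lemma lv_cons_ne {a x : α} (h : x ≠ a) (w : List α) : lv a (x :: w) = lv a w + 1 := by
  simp [lv, h]
@[simp] lemma lv_aw (a : α) (l : ℕ) : lv a (aw a l) = 0 := by
  induction l with
  | zero => rfl
  | succ l ih => rw [aw_succ, lv_cons_self, ih]
lemma lv_abw {a b : α} (h : b ≠ a) (l : ℕ) (w : List α) : lv a (abw a b l w) = lv a w + 1 := by
  induction l with
  | zero => rw [abw_zero, lv_cons_ne h]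
  | succ l ih => rw [abw_succ, lv_cons_self, ih]

/-- every word is `a^l` or `a^l b w` -/
lemma word_cases (a : α) (w : List α) :
    (∃ l, w = aw a l) ∨ (∃ b l v, b ≠ a ∧ w = abw a b l v) := by
  induction w with
  | nil => exact Or.inl ⟨0, rfl⟩
  | cons x w ih =>
    by_cases hx : x = a
    · subst hx
      rcases ih with ⟨l, hl⟩ | ⟨b, l, v, hb, hv⟩
      · exact Or.inl ⟨l+1, by rw [hl, aw_succ]⟩
      · exact Or.inr ⟨b, l+1, v, hb, by rw [hv, abw_succ]⟩
    · exact Or.inr ⟨x, 0, w, hx, rfl⟩

/-- a-part series -/
noncomputable def aser (a : α) (F : List α → ℤ) : ℤ⟦X⟧ := PowerSeries.mk fun l => F (aw a l)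
/-- row series -/
noncomputable def bser (a b : α) (F : List α → ℤ) (w : List α) : ℤ⟦X⟧ :=
  PowerSeries.mk fun l => F (abw a b l w)
/-- series of `P` at `a^i b a^m` -/
noncomputable def pser (a b : α) (F : List α → ℤ) (i : ℕ) : ℤ⟦X⟧ :=
  PowerSeries.mk fun m => F (abw a b i (aw a m))

@[simp] lemma coeff_aser (a : α) (F : List α → ℤ) (l : ℕ) : coeff l (aser a F) = F (aw a l) := by
  simp [aser]
@[simp] lemma coeff_bser (a b : α) (F : List α → ℤ) (w : List α) (l : ℕ) :
    coeff l (bser a b F w) = F (abw a b l w) := by
  simp [bser]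
@[simp] lemma coeff_pser (a b : α) (F : List α → ℤ) (i m : ℕ) :
    coeff m (pser a b F i) = F (abw a b i (aw a m)) := by
  simp [pser]
@[simp] lemma coeff_shift (V : ℤ⟦X⟧) (m : ℕ) : coeff m (shift V) = coeff (m+1) V := by
  simp [shift]

@[simp] lemma cc_aser (a : α) (F : List α → ℤ) : constantCoeff (aser a F) = F [] := by
  rw [← coeff_zero_eq_constantCoeff_apply]; simp
@[simp] lemma cc_bser (a b : α) (F : List α → ℤ) (w : List α) :
    constantCoeff (bser a b F w) = F (b :: w) := by
  rw [← coeff_zero_eq_constantCoeff_apply]; simp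
@[simp] lemma cc_pser (a b : α) (F : List α → ℤ) (i : ℕ) :
    constantCoeff (pser a b F i) = F (abw a b i []) := by
  rw [← coeff_zero_eq_constantCoeff_apply]; simp

lemma coeff_succ_mul (V W : ℤ⟦X⟧) (l : ℕ) :
    coeff (l+1) (V * W) = coeff 0 V * coeff (l+1) W + coeff l (shift V * W) := by
  rw [coeff_mul, coeff_mul, Finset.Nat.sum_antidiagonal_succ]
  simp

lemma theta_aw (a : α) (l : ℕ) (V : ℤ⟦X⟧) (Q : List α → ℤ) :
    theta a (aw a l) V Q = coeff l (V * aser a Q) := by
  induction l generalizing V with
  | zero => simp [theta]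
  | succ l ih =>
    rw [aw_succ, theta, if_pos rfl, ih, coeff_succ_mul]
    simp [aw_succ]

lemma theta_abw {a b : α} (hb : b ≠ a) (l : ℕ) (w : List α) (V : ℤ⟦X⟧) (Q : List α → ℤ) :
    theta a (abw a b l w) V Q = coeff l (V * bser a b Q w) := by
  induction l generalizing V with
  | zero => simp [theta, hb]
  | succ l ih =>
    rw [abw_succ, theta, if_pos rfl, ih, coeff_succ_mul]
    simp [abw_succ]

lemma shift_add (V W : ℤ⟦X⟧) : shift (V + W) = shift V + shift W := by ext; simp

lemma theta_add (a : α) (w : List α) (V W : ℤ⟦X⟧) (Q : List α → ℤ) :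
    theta a w (V + W) Q = theta a w V Q + theta a w W Q := by
  induction w generalizing V W with
  | nil => simp [theta, add_mul]
  | cons x w ih =>
    by_cases hx : x = a
    · simp only [theta, if_pos hx, shift_add, ih]
      simp [add_mul]; ring
    · simp only [theta, if_neg hx]
      simp [add_mul]

lemma theta_C_mul (a : α) (w : List α) (c : ℤ) (V : ℤ⟦X⟧) (Q : List α → ℤ) :
    theta a w (C c * V) Q = c * theta a w V Q := by
  induction w generalizing V with
  | nil => simp [theta, mul_assoc]
  | cons x w ih =>
    have hs : shift (C c * V) = C c * shift V := by ext; rw [coeff_shift, coeff_C_mul, coeff_C_mul, coeff_shift]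
    by_cases hx : x = a
    · simp only [theta, if_pos hx, hs, ih]
      simp; ring
    · simp only [theta, if_neg hx]
      simp [mul_assoc]

lemma theta_zero (a : α) (w : List α) (Q : List α → ℤ) : theta a w 0 Q = 0 := by
  have := theta_C_mul a w 0 0 Q
  simpa using this

lemma theta_sum {ι : Type} (a : α) (w : List α) (s : Finset ι) (c : ι → ℤ) (V : ι → ℤ⟦X⟧)
    (Q : List α → ℤ) :
    theta a w (∑ i ∈ s, C (c i) * V i) Q = ∑ i ∈ s, c i * theta a w (V i) Q := by
  classical
  induction s using Finset.induction_on with
  | empty => simp [theta_zero]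
  | insert i s hi ih => rw [Finset.sum_insert hi, Finset.sum_insert hi, theta_add, theta_C_mul, ih]

lemma conv_congr_zero (w : List α) (P Q : List α → ℤ) (h : ∀ u, P u = 0) : conv w P Q = 0 := by
  induction w generalizing P with
  | nil => simp [conv, h]
  | cons x w ih => rw [conv, h, ih (fun u => P (x :: u)) (fun u => h _)]; simp

/-- if `P` is supported on powers of `a` -/
lemma conv_level_zero (a : α) (w : List α) (P Q : List α → ℤ) (h : ∀ u, 1 ≤ lv a u → P u = 0) :
    conv w P Q = theta a w (aser a P) Q := by
  induction w generalizing P with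
  | nil => simp [conv, theta]
  | cons x w ih =>
    by_cases hx : x = a
    · subst hx
      have hs : shift (aser x P) = aser x (fun u => P (x :: u)) := by
        ext; simp [aw_succ]
      simp only [conv, theta, if_pos rfl, hs]
      rw [ih]
      · simp
      · intro u hu
        exact h _ (by rw [lv_cons_self]; exact hu)
    · simp only [conv, theta, if_neg hx]
      rw [conv_congr_zero]
      · simp
      · intro u
        exact h _ (by rw [lv_cons_ne hx]; omega)

/-- convolution at a power of `a` -/
lemma conv_aw (a : α) (l : ℕ) (P Q : List α → ℤ) :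
    conv (aw a l) P Q = coeff l (aser a P * aser a Q) := by
  induction l generalizing P with
  | zero => simp [conv]
  | succ l ih =>
    have hs : shift (aser a P) = aser a (fun u => P (a :: u)) := by
      ext; simp [aw_succ]
    rw [aw_succ, conv, ih, coeff_succ_mul, hs]
    simp [aw_succ]

/-- convolution at `a^i b w` for `P` of level at most one -/
lemma conv_abw {a b : α} (hb : b ≠ a) (i : ℕ) (w : List α) (P Q : List α → ℤ)
    (h : ∀ u, 2 ≤ lv a u → P u = 0) :
    conv (abw a b i w) P Q =
      coeff i (aser a P * bser a b Q w) + theta a w (pser a b P i) Q := by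
  induction i generalizing P with
  | zero =>
    simp only [abw_zero, conv]
    rw [conv_level_zero a w]
    · have : aser a (fun u => P (b :: u)) = pser a b P 0 := by ext; simp
      rw [this]; simp
    · intro u hu
      exact h _ (by rw [lv_cons_ne hb]; omega)
  | succ i ih =>
    have hs : shift (aser a P) = aser a (fun u => P (a :: u)) := by
      ext; simp [aw_succ]
    have hp : pser a b P (i+1) = pser a b (fun u => P (a :: u)) i := by
      ext; simp [abw_succ]
    rw [abw_succ, conv, ih, coeff_succ_mul, hs, hp]
    · simp [abw_succ]; ring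
    · intro u hu
      exact h _ (by rw [lv_cons_self]; exact hu)

lemma aser_R (a : α) (S : List α → ℤ) : aser a (R S) = (X - 1) * aser a S := by
  ext l
  cases l with
  | zero => simp [R, sub_mul]
  | succ l =>
    rw [sub_mul, one_mul, map_sub, coeff_succ_X_mul]
    simp [aw_succ, R]

lemma bser_R (a b : α) (S : List α → ℤ) (w : List α) :
    bser a b (R S) w = C (S w) - (1 - X) * bser a b S w := by
  ext l
  cases l with
  | zero => simp [R, sub_mul]
  | succ l =>
    rw [sub_mul, one_mul, map_sub, map_sub, coeff_succ_X_mul, coeff_C]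
    simp [abw_succ, R]

end H42Sch
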