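import Pool.Agent.H42Sch.Basic

set_option autoImplicit false
set_option linter.unusedSectionVars false
set_option linter.unusedSimpArgs false
set_option linter.unnecessarySimpa false

namespace H42Sch

open PowerSeries

variable {α : Type} [DecidableEq α]

/-- The data of a factorization `c - 1 = P (A - 1) S` with `P` of level at most one. -/
structure Fac (a : α) (n : ℕ) (c P S : List α → ℤ) : Prop where
  c_nonneg : ∀ w, 0 ≤ c w
  P_nil : P [] = 1
  S_nil : S [] = 1
  npos : 1 ≤ n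
  fact : ∀ w, w ≠ [] → c w = conv w P (R S)
  c_aw : ∀ l, c (aw a l) = if l = n then 1 else 0
  P_lv : ∀ u, 2 ≤ lv a u → P u = 0
  fin : ∃ N, ∀ w, N ≤ w.length → P w = 0 ∧ S w = 0

/-- `Y_V = S + V (A - 1) S` -/
noncomputable def Y (a : α) (S : List α → ℤ) (V : ℤ⟦X⟧) (w : List α) : ℤ :=
  S w + theta a w V (R S)

/-- `1 / (1 - X^n)` -/
noncomputable def invD (n : ℕ) : ℤ⟦X⟧ := PowerSeries.mk fun k => if n ∣ k then 1 else 0

/-- `X_V` -/
noncomputable def Xs (a : α) (n : ℕ) (S : List α → ℤ) (V : ℤ⟦X⟧) : ℤ⟦X⟧ :=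
  (aser a S * (1 - (1 - X) * V)) * invD n

/-- `Φ_l(V)` -/
noncomputable def Phi (a b : α) (n : ℕ) (P S : List α → ℤ) (V : ℤ⟦X⟧) (l : ℕ) : ℤ⟦X⟧ :=
  ∑ p ∈ Finset.HasAntidiagonal.antidiagonal l, C (coeff p.1 (Xs a n S V)) * pser a b P p.2

lemma invD_mul {n : ℕ} (hn : 1 ≤ n) : (1 - X ^ n) * invD n = 1 := by
  ext k
  rw [sub_mul, one_mul, map_sub, coeff_X_pow_mul', coeff_one]
  simp only [invD, coeff_mk]
  by_cases hk : k = 0
  · subst hk
    have h0 : ¬ n ≤ 0 := by omega
    simp [h0]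
  · rw [if_neg hk]
    by_cases hnk : n ≤ k
    · rw [if_pos hnk]
      have : n ∣ k - n ↔ n ∣ k := by
        constructor
        · intro h
          have := Nat.dvd_add h (dvd_refl n)
          rwa [Nat.sub_add_cancel hnk] at this
        · intro h
          exact Nat.dvd_sub h (dvd_refl n)
      simp [this]
    · rw [if_neg hnk]
      have : ¬ n ∣ k := fun h => hnk (Nat.le_of_dvd (by omega) h)
      simp [this]

lemma Y_aw (a : α) (S : List α → ℤ) (V : ℤ⟦X⟧) (l : ℕ) :
    Y a S V (aw a l) = coeff l (aser a S * (1 - (1 - X) * V)) := by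
  rw [Y, theta_aw, aser_R]
  have : aser a S * (1 - (1 - X) * V) = aser a S + V * ((X - 1) * aser a S) := by ring
  rw [this, map_add, coeff_aser]

lemma Y_abw {a b : α} (hb : b ≠ a) (S : List α → ℤ) (V : ℤ⟦X⟧) (l : ℕ) (w : List α) :
    Y a S V (abw a b l w) =
      coeff l (bser a b S w + V * (C (S w) - (1 - X) * bser a b S w)) := by
  rw [Y, theta_abw hb, bser_R, map_add, coeff_bser]

lemma Y_b {a b : α} (hb : b ≠ a) (S : List α → ℤ) (V : ℤ⟦X⟧) (w : List α) :
    Y a S V (b :: w) = S (b :: w) + coeff 0 V * (S w - S (b :: w)) := by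
  rw [Y, theta, if_neg hb, R, add_zero]

lemma Y_nil (a : α) (S : List α → ℤ) (V : ℤ⟦X⟧) :
    Y a S V [] = S [] - coeff 0 V * S [] := by
  rw [Y, theta, R]; ring

lemma Y_zero (a : α) (S : List α → ℤ) (w : List α) : Y a S 0 w = S w := by
  rw [Y, theta_zero, add_zero]

section fac

variable {a : α} {n : ℕ} {c P S : List α → ℤ}

lemma Fac.aser_eq (h : Fac a n c P S) : aser a P * aser a S * (1 - X) = 1 - X ^ n := by
  ext l
  have h1 : coeff l (aser a P * aser a S * (1 - X)) = - coeff l (aser a P * aser a (R S)) := by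
    rw [aser_R, ← map_neg]
    congr 1
    ring
  rw [h1, ← conv_aw]
  rw [map_sub, coeff_one, coeff_X_pow]
  by_cases hl : l = 0
  · subst hl
    have := h.npos
    have h0 : ¬ 0 = n := by omega
    simp [conv, R, h.P_nil, h.S_nil, h0]
  · have hne : aw a l ≠ [] := by
      intro h0
      apply hl
      have := congrArg List.length h0
      simpa using this
    rw [← h.fact _ hne, h.c_aw, if_neg hl]
    ring

lemma Fac.Xs_mul_P (h : Fac a n c P S) (V : ℤ⟦X⟧) :
    Xs a n S V * aser a P = PowerSeries.mk 1 - V := by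
  have h1 : (PowerSeries.mk 1 : ℤ⟦X⟧) * (1 - X) = 1 := PowerSeries.mk_one_mul_one_sub_eq_one ℤ
  have h2 := h.aser_eq
  have h3 := invD_mul h.npos
  calc Xs a n S V * aser a P
      = (PowerSeries.mk 1 * (1 - X)) * (Xs a n S V * aser a P) := by rw [h1, one_mul]
    _ = PowerSeries.mk 1 * ((1 - (1 - X) * V) * ((aser a P * aser a S * (1 - X)) * invD n)) := by
        rw [Xs]; ring
    _ = PowerSeries.mk 1 * ((1 - (1 - X) * V)) := by rw [h2, h3, mul_one]
    _ = PowerSeries.mk 1 - (PowerSeries.mk 1 * (1 - X)) * V := by ring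
    _ = PowerSeries.mk 1 - V := by rw [h1, one_mul]

lemma Fac.c_abw (h : Fac a n c P S) {b : α} (hb : b ≠ a) (i : ℕ) (w : List α) :
    c (abw a b i w) = coeff i (aser a P * (C (S w) - (1 - X) * bser a b S w)) +
      theta a w (pser a b P i) (R S) := by
  rw [h.fact _ (by simp [abw]), conv_abw hb i w P (R S) h.P_lv, bser_R]

/-- transition identity -/
lemma Fac.T (h : Fac a n c P S) {b : α} (hb : b ≠ a) (V : ℤ⟦X⟧) (l : ℕ) (w : List α) :
    ∑ p ∈ Finset.HasAntidiagonal.antidiagonal l, coeff p.1 (Xs a n S V) * c (abw a b p.2 w) =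
      Y a S (Phi a b n P S V l) w - Y a S V (abw a b l w) := by
  have e1 : ∑ p ∈ Finset.HasAntidiagonal.antidiagonal l, coeff p.1 (Xs a n S V) * c (abw a b p.2 w) =
      coeff l (Xs a n S V * (aser a P * (C (S w) - (1 - X) * bser a b S w))) +
      theta a w (Phi a b n P S V l) (R S) := by
    rw [Phi, theta_sum, coeff_mul, ← Finset.sum_add_distrib]
    apply Finset.sum_congr rfl
    intro p _
    rw [h.c_abw hb, mul_add]
  have h1 : (PowerSeries.mk 1 : ℤ⟦X⟧) * (1 - X) = 1 := PowerSeries.mk_one_mul_one_sub_eq_one ℤ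
  have e2 : Xs a n S V * (aser a P * (C (S w) - (1 - X) * bser a b S w)) =
      PowerSeries.mk 1 * C (S w) - (bser a b S w + V * (C (S w) - (1 - X) * bser a b S w)) := by
    rw [← mul_assoc, h.Xs_mul_P]
    calc (PowerSeries.mk 1 - V) * (C (S w) - (1 - X) * bser a b S w)
        = PowerSeries.mk 1 * C (S w) - ((PowerSeries.mk 1 * (1 - X)) * bser a b S w +
            V * (C (S w) - (1 - X) * bser a b S w)) := by ring
      _ = _ := by rw [h1, one_mul]
  rw [e1, e2, map_sub, Y_abw hb, coeff_mul_C]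
  rw [Y]
  simp
  ring

lemma Fac.star (h : Fac a n c P S) {b : α} (hb : b ≠ a) (w : List α) :
    Y a S (pser a b P 0) w = c (b :: w) + S (b :: w) := by
  have := h.c_abw hb 0 w
  rw [abw_zero] at this
  rw [this, Y]
  simp [sub_mul, h.P_nil]
  ring

/-- `V ≥ 0` and `Y_V ≥ 0` -/
def Good (a : α) (S : List α → ℤ) (V : ℤ⟦X⟧) : Prop :=
  (∀ i, 0 ≤ coeff i V) ∧ ∀ w, 0 ≤ Y a S V w

lemma Xs_nonneg {V : ℤ⟦X⟧} (hV : ∀ w, 0 ≤ Y a S V w) (t : ℕ) : 0 ≤ coeff t (Xs a n S V) := by
  rw [Xs, coeff_mul]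
  apply Finset.sum_nonneg
  intro p _
  apply mul_nonneg
  · rw [← Y_aw]; exact hV _
  · simp only [invD, coeff_mk]; split_ifs <;> norm_num

lemma Xs_ge {V : ℤ⟦X⟧} (hV : ∀ w, 0 ≤ Y a S V w) (t : ℕ) :
    Y a S V (aw a t) ≤ coeff t (Xs a n S V) := by
  rw [Xs, coeff_mul]
  have hmem : (t, 0) ∈ Finset.HasAntidiagonal.antidiagonal t := by simp
  have : Y a S V (aw a t) = coeff (t, 0).1 (aser a S * (1 - (1 - X) * V)) *
      coeff (t,0).2 (invD n) := by
    rw [Y_aw]; simp [invD]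
  rw [this]
  refine Finset.single_le_sum (f := fun p : ℕ × ℕ => coeff p.1 (aser a S * (1 - (1 - X) * V)) *
      coeff p.2 (invD n)) ?_ hmem
  intro p _
  apply mul_nonneg
  · rw [← Y_aw]; exact hV _
  · simp only [invD, coeff_mk]; split_ifs <;> norm_num

lemma Fac.good_Phi (h : Fac a n c P S) (hP1 : ∀ u, lv a u = 1 → 0 ≤ P u) {b : α} (hb : b ≠ a)
    {V : ℤ⟦X⟧} (hV : Good a S V) (l : ℕ) : Good a S (Phi a b n P S V l) := by
  constructor
  · intro i
    rw [Phi, map_sum]
    apply Finset.sum_nonneg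
    intro p _
    rw [coeff_C_mul]
    apply mul_nonneg (Xs_nonneg hV.2 _)
    rw [coeff_pser]
    apply hP1
    rw [lv_abw hb, lv_aw]
  · intro w
    have h1 := h.T hb V l w
    have h2 : 0 ≤ ∑ p ∈ Finset.HasAntidiagonal.antidiagonal l, coeff p.1 (Xs a n S V) * c (abw a b p.2 w) := by
      apply Finset.sum_nonneg
      intro p _
      exact mul_nonneg (Xs_nonneg hV.2 _) (h.c_nonneg _)
    have h3 := hV.2 (abw a b l w)
    linarith

lemma Fac.good_zero (hg : Good a S 0) (w : List α) : 0 ≤ S w := by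
  have := hg.2 w
  rwa [Y_zero] at this

/-- telescoping -/
lemma nonneg_of_step (F : List α → ℤ) (N : ℕ) (hN : ∀ w, N ≤ w.length → 0 ≤ F w)
    (hs : ∀ w, ∃ w', w.length < w'.length ∧ F w' ≤ F w) (w : List α) : 0 ≤ F w := by
  have key : ∀ k w, N ≤ w.length + k → 0 ≤ F w := by
    intro k
    induction k with
    | zero => intro w hw; exact hN w (by omega)
    | succ k ih =>
      intro w hw
      obtain ⟨w', h1, h2⟩ := hs w
      exact le_trans (ih w' (by omega)) h2
  exact key N w (by omega)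

end fac

end H42Sch
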