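import Pool.Agent.H42Sch.Main

set_option autoImplicit false
set_option linter.unusedSectionVars false
set_option linter.unusedSimpArgs false
set_option linter.unnecessarySimpa false

namespace H42Sch

variable {α : Type} [DecidableEq α]

lemma lv_eq_filter (a : α) (w : List α) : (w.filter (fun y => y ≠ a)).length = lv a w := by
  induction w with
  | nil => rfl
  | cons x w ih =>
    by_cases hx : x = a
    · rw [List.filter_cons_of_neg (by simpa using hx), ih]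
      simp [lv, hx]
    · rw [List.filter_cons_of_pos (by simpa using hx), List.length_cons, ih]
      simp [lv, hx]

lemma ofList_aw (a : α) (i : ℕ) : FreeMonoid.ofList (aw a i) = FreeMonoid.of a ^ i := by
  induction i with
  | zero => rfl
  | succ i ih => rw [aw_succ, FreeMonoid.ofList_cons, ih, pow_succ']

variable [Fintype α]

lemma prod_one {c P S : MonoidAlgebra ℤ (FreeMonoid α)} (h0 : fn c [] = 0)
    (E : c - 1 = P * (Alph α - 1) * S) : fn P [] * fn S [] = 1 := by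
  have h : fn (c - 1) [] = conv [] (fn P) (R (fn S)) := by
    rw [E, mul_assoc, fn_mul, fn_R]
  rw [fn_sub, fn_one, h0, conv, R] at h
  simp at h
  linarith

lemma fn_sum_nil {C : Finset (FreeMonoid α)} (h1 : (1 : FreeMonoid α) ∉ C) :
    fn (∑ x ∈ C, MonoidAlgebra.of ℤ (FreeMonoid α) x) [] = 0 := by
  rw [fn_sum_of, if_neg (by rw [FreeMonoid.ofList_nil]; exact h1)]

lemma mkDat {a : α} {n : ℕ} {C : Finset (FreeMonoid α)} {P S : MonoidAlgebra ℤ (FreeMonoid α)}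
    (h1 : (1 : FreeMonoid α) ∉ C) (ha : FreeMonoid.of a ^ n ∈ C)
    (E : (∑ x ∈ C, MonoidAlgebra.of ℤ (FreeMonoid α) x) - 1 = P * (Alph α - 1) * S)
    (hP : fn P [] = 1) : Dat a n (∑ x ∈ C, MonoidAlgebra.of ℤ (FreeMonoid α) x) P S := by
  refine ⟨?_, fn_sum_nil h1, ?_, E, hP⟩
  · intro w; rw [fn_sum_of]; split_ifs <;> norm_num
  · rw [fn_sum_of, if_pos]
    rw [ofList_aw]; exact ha

lemma neg_E {c P S : MonoidAlgebra ℤ (FreeMonoid α)} (E : c - 1 = P * (Alph α - 1) * S) :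
    c - 1 = (-P) * (Alph α - 1) * (-S) := by
  rw [E]; noncomm_ring

lemma sum_level {a : α} {C : Finset (FreeMonoid α)} {d : ℕ}
    (h4 : ∀ x ∈ C, (x.toList.filter (fun y => y ≠ a)).length ≤ d) :
    ∀ w, fn (∑ x ∈ C, MonoidAlgebra.of ℤ (FreeMonoid α) x) w ≠ 0 → lv a w ≤ d := by
  intro w hw
  rw [fn_sum_of] at hw
  by_cases hm : FreeMonoid.ofList w ∈ C
  · have := h4 _ hm
    rw [lv_eq_filter] at this
    exact this
  · rw [if_neg hm] at hw
    exact absurd rfl hw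

/-- some power of `a` lies in `C` -/
lemma exists_power {a : α} {C : Finset (FreeMonoid α)} {P S : MonoidAlgebra ℤ (FreeMonoid α)}
    (E : (∑ x ∈ C, MonoidAlgebra.of ℤ (FreeMonoid α) x) - 1 = P * (Alph α - 1) * S) :
    ∃ n, FreeMonoid.of a ^ n ∈ C := by
  set c := ∑ x ∈ C, MonoidAlgebra.of ℤ (FreeMonoid α) x with hc
  obtain ⟨Nc, hNc⟩ := exists_bound c
  obtain ⟨Np, hNp⟩ := exists_bound P
  obtain ⟨Ns, hNs⟩ := exists_bound S
  obtain ⟨q, hq⟩ := exists_poly (aser a (fn c)) Nc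
    (by intro i hi; rw [coeff_aser]; exact hNc _ (by simpa using hi))
  obtain ⟨p, hp⟩ := exists_poly (aser a (fn P)) Np
    (by intro i hi; rw [coeff_aser]; exact hNp _ (by simpa using hi))
  obtain ⟨s, hs⟩ := exists_poly (aser a (fn S)) Ns
    (by intro i hi; rw [coeff_aser]; exact hNs _ (by simpa using hi))
  have e1 : aser a (fn c) - 1 = aser a (fn P) * ((PowerSeries.X - 1) * aser a (fn S)) := by
    ext l
    rw [← aser_R, ← conv_aw, ← fn_R, ← fn_mul, ← mul_assoc, ← E, map_sub, coeff_aser,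
      PowerSeries.coeff_one, fn_sub, fn_one]
    have : aw a l = [] ↔ l = 0 := by
      constructor
      · intro h0
        have := congrArg List.length h0
        simpa using this
      · intro h0; rw [h0]; rfl
    simp only [this]
  have e2 : q - 1 = p * ((Polynomial.X - 1) * s) := by
    rw [← hq, ← hp, ← hs] at e1
    have h2 : ((q - 1 : Polynomial ℤ) : PowerSeries ℤ) =
        ((p * ((Polynomial.X - 1) * s) : Polynomial ℤ) : PowerSeries ℤ) := by
      push_cast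
      exact e1
    exact Polynomial.coe_injective ℤ h2
  have e3 : q.eval 1 = 1 := by
    have := congrArg (Polynomial.eval 1) e2
    simp at this
    linarith
  have hqc : ∀ i, q.coeff i = fn c (aw a i) := by
    intro i; rw [← Polynomial.coeff_coe, hq, coeff_aser]
  by_contra hcon
  push Not at hcon
  have : q = 0 := by
    ext i
    rw [hqc, hc, fn_sum_of, if_neg]
    · simp
    · rw [ofList_aw]; exact hcon i
  rw [this] at e3
  simp at e3

lemma eq_neg_sum {x : MonoidAlgebra ℤ (FreeMonoid α)} {s : Finset (FreeMonoid α)}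
    (h : -x = ∑ u ∈ s, MonoidAlgebra.of ℤ (FreeMonoid α) u) :
    x = -∑ u ∈ s, MonoidAlgebra.of ℤ (FreeMonoid α) u := by
  rw [← h, neg_neg]

lemma propN_of {n : ℕ} (hn : (∃ p k : ℕ, p.Prime ∧ n = p ^ k) ∨
    (∃ p q : ℕ, p.Prime ∧ q.Prime ∧ n = p * q)) : PropN n := by
  rcases hn with ⟨p, k, hp, rfl⟩ | ⟨p, q, hp, hq, rfl⟩
  · exact propN_prime_pow p k hp
  · by_cases hne : p = q
    · subst hne
      rw [← pow_two]
      exact propN_prime_pow p 2 hp
    · exact propN_pq p q hp hq hne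

lemma cases_int {x y : ℤ} (h : x * y = 1) : (x = 1 ∧ y = 1) ∨ (x = -1 ∧ y = -1) := by
  rcases Int.eq_one_or_neg_one_of_mul_eq_one h with hx | hx
  · left; refine ⟨hx, ?_⟩; rw [hx] at h; linarith
  · right; refine ⟨hx, ?_⟩; rw [hx] at h; linarith

/-- positivity gives finite sets -/
lemma Dat.sets {a : α} {n : ℕ} {c P S : MonoidAlgebra ℤ (FreeMonoid α)} (h : Dat a n c P S)
    (hP : ∀ w, 0 ≤ fn P w) (hS : ∀ w, 0 ≤ fn S w) :
    ∃ P' S' : Finset (FreeMonoid α), P = ∑ x ∈ P', MonoidAlgebra.of ℤ (FreeMonoid α) x ∧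
      S = ∑ x ∈ S', MonoidAlgebra.of ℤ (FreeMonoid α) x := by
  have h1 := le_one_of_nonneg h.nn h.c0 hP hS h.P0 h.S0 h.E
  obtain ⟨P', hP'⟩ := eq_sum_of_zero_one P hP h1.1
  obtain ⟨S', hS'⟩ := eq_sum_of_zero_one S hS h1.2
  exact ⟨P', S', hP', hS'⟩

theorem four_main (a : α) (hα : ∃ b : α, b ≠ a)
    (C : Finset (FreeMonoid α)) (P S : MonoidAlgebra ℤ (FreeMonoid α)) (n : ℕ)
    (h1 : (1 : FreeMonoid α) ∉ C)
    (h4 : ∀ x ∈ C, (x.toList.filter (fun y => y ≠ a)).length ≤ 4)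
    (ha : FreeMonoid.of a ^ n ∈ C)
    (hn : (∃ p k : ℕ, p.Prime ∧ n = p ^ k) ∨ (∃ p q : ℕ, p.Prime ∧ q.Prime ∧ n = p * q))
    (E : (∑ x ∈ C, MonoidAlgebra.of ℤ (FreeMonoid α) x) - 1 = P * (Alph α - 1) * S) :
    ∃ P' S' : Finset (FreeMonoid α),
      (P = ∑ x ∈ P', MonoidAlgebra.of ℤ (FreeMonoid α) x ∧
        S = ∑ x ∈ S', MonoidAlgebra.of ℤ (FreeMonoid α) x) ∨
      (P = -∑ x ∈ P', MonoidAlgebra.of ℤ (FreeMonoid α) x ∧
        S = -∑ x ∈ S', MonoidAlgebra.of ℤ (FreeMonoid α) x) := by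
  obtain ⟨b, hb⟩ := hα
  have hN := propN_of hn
  have hlev := sum_level h4
  rcases cases_int (prod_one (fn_sum_nil h1) E) with ⟨hP, _⟩ | ⟨hP, _⟩
  · have hD := mkDat h1 ha E hP
    obtain ⟨h5, h6⟩ := hD.four hb hN hlev
    obtain ⟨P', S', hP', hS'⟩ := hD.sets h5 h6
    exact ⟨P', S', Or.inl ⟨hP', hS'⟩⟩
  · have hD := mkDat (P := -P) (S := -S) h1 ha (neg_E E) (by rw [fn_neg, hP]; norm_num)
    obtain ⟨h5, h6⟩ := hD.four hb hN hlev
    obtain ⟨P', S', hP', hS'⟩ := hD.sets h5 h6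
    exact ⟨P', S', Or.inr ⟨eq_neg_sum hP', eq_neg_sum hS'⟩⟩

theorem red_main (a : α) (hα : ∃ b : α, b ≠ a)
    (C : Finset (FreeMonoid α)) (P S : MonoidAlgebra ℤ (FreeMonoid α))
    (h1 : (1 : FreeMonoid α) ∉ C)
    (h4 : ∀ x ∈ C, (x.toList.filter (fun y => y ≠ a)).length ≤ 4)
    (hPa : ∀ i : ℕ, 0 ≤ P.coeff (FreeMonoid.of a ^ i))
    (hSa : ∀ i : ℕ, 0 ≤ S.coeff (FreeMonoid.of a ^ i))
    (E : (∑ x ∈ C, MonoidAlgebra.of ℤ (FreeMonoid α) x) - 1 = P * (Alph α - 1) * S) :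
    ∃ P' S' : Finset (FreeMonoid α),
      P = ∑ x ∈ P', MonoidAlgebra.of ℤ (FreeMonoid α) x ∧
        S = ∑ x ∈ S', MonoidAlgebra.of ℤ (FreeMonoid α) x := by
  obtain ⟨b, hb⟩ := hα
  obtain ⟨n, ha⟩ := exists_power (a := a) E
  have hlev := sum_level h4
  have hP0 : 0 ≤ fn P [] := by
    have := hPa 0
    rw [pow_zero] at this
    exact this
  rcases cases_int (prod_one (fn_sum_nil h1) E) with ⟨hP, _⟩ | ⟨hP, _⟩
  · have hD := mkDat h1 ha E hP
    obtain ⟨h5, h6⟩ := hD.red hb (fun i => by rw [fn, ofList_aw]; exact hPa i)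
      (fun i => by rw [fn, ofList_aw]; exact hSa i) hlev
    exact hD.sets h5 h6
  · rw [hP] at hP0
    norm_num at hP0

theorem half_aux (a : α) (hα : ∃ b : α, b ≠ a)
    (C : Finset (FreeMonoid α)) (P S : MonoidAlgebra ℤ (FreeMonoid α))
    (h1 : (1 : FreeMonoid α) ∉ C)
    (hlev : (∀ x ∈ C, (x.toList.filter (fun y => y ≠ a)).length ≤ 4) ∨
      (∀ x, P.coeff x ≠ 0 → (x.toList.filter (fun y => y ≠ a)).length ≤ 1) ∨
      (∀ x, S.coeff x ≠ 0 → (x.toList.filter (fun y => y ≠ a)).length ≤ 1))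
    (E : (∑ x ∈ C, MonoidAlgebra.of ℤ (FreeMonoid α) x) - 1 = P * (Alph α - 1) * S)
    (hP1 : fn P [] = 1) :
    ∃ T : Finset (FreeMonoid α),
      P = ∑ x ∈ T, MonoidAlgebra.of ℤ (FreeMonoid α) x ∨
      S = ∑ x ∈ T, MonoidAlgebra.of ℤ (FreeMonoid α) x := by
  obtain ⟨b, hb⟩ := hα
  obtain ⟨n, ha⟩ := exists_power (a := a) E
  have hD := mkDat h1 ha E hP1
  have key : (∀ u, 2 ≤ lv a u → fn P u = 0) ∨ (∀ u, 2 ≤ lv a u → fn S u = 0) := by
    have hconv : ∀ x : MonoidAlgebra ℤ (FreeMonoid α),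
        (∀ y, x.coeff y ≠ 0 → (y.toList.filter (fun z => z ≠ a)).length ≤ 1) →
        ∀ u, 2 ≤ lv a u → fn x u = 0 := by
      intro x hx u hu
      by_contra hne
      have := hx _ hne
      rw [lv_eq_filter] at this
      simp only [FreeMonoid.toList_ofList] at this
      omega
    rcases hlev with h4 | h4 | h4
    · obtain ⟨p, hp, hpne⟩ := hD.topP
      obtain ⟨K, hK, hKne⟩ := hD.topS
      have hpK := hD.top hb (sum_level h4) hp hpne hK hKne
      by_cases hp1 : p ≤ 1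
      · left; intro u hu; exact hp u (by omega)
      · right; intro u hu; exact hK u (by omega)
    · exact Or.inl (hconv P h4)
    · exact Or.inr (hconv S h4)
  rcases key with hk | hk
  · rcases hD.halfP hb hk with ⟨h5, h6⟩ | ⟨h5, h6⟩
    · obtain ⟨T, hT⟩ := eq_sum_of_zero_one S h5 h6
      exact ⟨T, Or.inr hT⟩
    · obtain ⟨T, hT⟩ := eq_sum_of_zero_one P h5 h6
      exact ⟨T, Or.inl hT⟩
  · have hk' : ∀ u, 2 ≤ lv a u → fn (rev S) u = 0 := by
      intro u hu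
      rw [fn_rev]
      exact hk _ (by rw [lv_reverse]; exact hu)
    rcases hD.rev.halfP hb hk' with ⟨h5, h6⟩ | ⟨h5, h6⟩
    · obtain ⟨T, hT⟩ := eq_sum_of_zero_one P (nn_of_rev h5) (le_of_rev h6)
      exact ⟨T, Or.inl hT⟩
    · obtain ⟨T, hT⟩ := eq_sum_of_zero_one S (nn_of_rev h5) (le_of_rev h6)
      exact ⟨T, Or.inr hT⟩

theorem half_main (a : α) (hα : ∃ b : α, b ≠ a)
    (C : Finset (FreeMonoid α)) (P S : MonoidAlgebra ℤ (FreeMonoid α))
    (h1 : (1 : FreeMonoid α) ∉ C)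
    (hlev : (∀ x ∈ C, (x.toList.filter (fun y => y ≠ a)).length ≤ 4) ∨
      (∀ x, P.coeff x ≠ 0 → (x.toList.filter (fun y => y ≠ a)).length ≤ 1) ∨
      (∀ x, S.coeff x ≠ 0 → (x.toList.filter (fun y => y ≠ a)).length ≤ 1))
    (E : (∑ x ∈ C, MonoidAlgebra.of ℤ (FreeMonoid α) x) - 1 = P * (Alph α - 1) * S) :
    ∃ (T : Finset (FreeMonoid α)) (e : ℤ), (e = 1 ∨ e = -1) ∧
      (P = e • ∑ x ∈ T, MonoidAlgebra.of ℤ (FreeMonoid α) x ∨
       S = e • ∑ x ∈ T, MonoidAlgebra.of ℤ (FreeMonoid α) x) := by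
  rcases cases_int (prod_one (fn_sum_nil h1) E) with ⟨hP, _⟩ | ⟨hP, _⟩
  · obtain ⟨T, hT⟩ := half_aux a hα C P S h1 hlev E hP
    exact ⟨T, 1, Or.inl rfl, by simpa using hT⟩
  · obtain ⟨T, hT⟩ := half_aux a hα C (-P) (-S) h1 (by simpa using hlev) (neg_E E)
      (by rw [fn_neg, hP]; norm_num)
    refine ⟨T, -1, Or.inr rfl, ?_⟩
    rcases hT with hT | hT
    · left; rw [← hT]; simp
    · right; rw [← hT]; simp

end H42Sch
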