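import Pool.Agent.H42Sch.Sign

set_option autoImplicit false
set_option linter.unusedSectionVars false
set_option linter.unusedSimpArgs false
set_option linter.unnecessarySimpa false

namespace H42Sch

open PowerSeries

variable {α : Type} [DecidableEq α]

lemma coeff_mul_of_lt (V W : ℤ⟦X⟧) (j : ℕ) (h : ∀ l, l < j → coeff l W = 0) :
    coeff j (V * W) = coeff 0 V * coeff j W := by
  rw [coeff_mul]
  rw [Finset.sum_eq_single (0, j)]
  · intro p hp hne
    have hp' := Finset.HasAntidiagonal.mem_antidiagonal.mp hp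
    rw [h p.2, mul_zero]
    by_contra hcon
    apply hne
    have h1 : p.1 = 0 := by omega
    have h2 : p.2 = j := by omega
    exact Prod.ext h1 h2
  · intro hp
    exact absurd (by simp) hp

section fac

variable {a : α} {n : ℕ} {c P S : List α → ℤ}

lemma Fac.unamb0 (h : Fac a n c P S) {b : α} (hb : b ≠ a) :
    ∃ m, c (b :: aw b m) = 1 ∧ ∀ V : ℤ⟦X⟧, Good a S V → Y a S V (aw b m) ≤ 1 := by
  obtain ⟨m, hcm, h1⟩ := h.bseq hb
  refine ⟨m, hcm, ?_⟩
  intro V hV
  rcases h1 with ⟨hπ, hs⟩ | ⟨hπ, m', rfl, hs1, hs2⟩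
  · cases m with
    | zero =>
      rw [aw_zero, Y_nil, h.S_nil]
      have := hV.1 0
      linarith
    | succ m =>
      rw [aw_succ, Y_b hb, ← aw_succ, hs (m+1) le_rfl, hs m (by omega)]
      linarith
  · rw [aw_succ, Y_b hb, ← aw_succ, hs1, hs2]
    have := hV.2 []
    rw [Y_nil, h.S_nil] at this
    linarith

lemma Fac.X_le (h : Fac a n c P S) (hP1 : ∀ u, lv a u = 1 → 0 ≤ P u) {b : α} (hb : b ≠ a)
    {V : ℤ⟦X⟧} (hV : Good a S V) (t : ℕ) : coeff t (Xs a n S V) ≤ 1 := by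
  obtain ⟨m, hcm, h1⟩ := h.unamb0 hb
  have hT := h.T hb V t (aw b m)
  have hG := h.good_Phi hP1 hb hV t
  have h2 := h1 _ hG
  have h3 := hV.2 (abw a b t (aw b m))
  have h4 : coeff t (Xs a n S V) ≤
      ∑ p ∈ Finset.HasAntidiagonal.antidiagonal t,
        coeff p.1 (Xs a n S V) * c (abw a b p.2 (aw b m)) := by
    have hmem : (t, 0) ∈ Finset.HasAntidiagonal.antidiagonal t := by simp
    have := Finset.single_le_sum
      (f := fun p : ℕ × ℕ => coeff p.1 (Xs a n S V) * c (abw a b p.2 (aw b m)))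
      (fun p _ => mul_nonneg (Xs_nonneg hV.2 _) (h.c_nonneg _)) hmem
    simp only [abw_zero, hcm, mul_one] at this
    exact this
  linarith

lemma Fac.Y_le (h : Fac a n c P S) (hP1 : ∀ u, lv a u = 1 → 0 ≤ P u) {b0 : α} (hb0 : b0 ≠ a) :
    ∀ (k : ℕ) (w : List α), w.length ≤ k → ∀ V : ℤ⟦X⟧, Good a S V → Y a S V w ≤ 1 := by
  intro k
  induction k with
  | zero =>
    intro w hw V hV
    have : w = aw a 0 := by
      rw [aw_zero]; exact List.length_eq_zero_iff.mp (by omega)
    rw [this]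
    exact le_trans (Xs_ge (n := n) hV.2 0) (h.X_le hP1 hb0 hV 0)
  | succ k ih =>
    intro w hw V hV
    rcases word_cases a w with ⟨l, rfl⟩ | ⟨b, l, v, hb, rfl⟩
    · exact le_trans (Xs_ge (n := n) hV.2 l) (h.X_le hP1 hb0 hV l)
    · have hT := h.T hb V l v
      have hG := h.good_Phi hP1 hb hV l
      have h1 := ih v (by rw [abw_length] at hw; omega) _ hG
      have h4 : 0 ≤ ∑ p ∈ Finset.HasAntidiagonal.antidiagonal l,
        coeff p.1 (Xs a n S V) * c (abw a b p.2 v) :=
        Finset.sum_nonneg (fun p _ => mul_nonneg (Xs_nonneg hV.2 _) (h.c_nonneg _))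
      linarith

lemma Fac.Y_le' (h : Fac a n c P S) (hP1 : ∀ u, lv a u = 1 → 0 ≤ P u) {b : α} (hb : b ≠ a)
    {V : ℤ⟦X⟧} (hV : Good a S V) (w : List α) : Y a S V w ≤ 1 :=
  h.Y_le hP1 hb w.length w le_rfl V hV

/-- if `P b = 1` then `S ≥ 0` -/
lemma Fac.S_nonneg_of_one (h : Fac a n c P S) {b : α} (hb : b ≠ a) (hπ : P [b] = 1) (w : List α) :
    0 ≤ S w := by
  obtain ⟨N, hN⟩ := h.fin
  apply nonneg_of_step _ N
  · intro w hw
    rw [(hN w hw).2]
  · intro w
    refine ⟨b :: b :: w, by simp, ?_⟩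
    have h1 := h.star hb (b :: w)
    have h0 : coeff 0 (pser a b P 0) = 1 := by
      rw [coeff_pser]; exact hπ
    rw [Y_b hb, h0] at h1
    have := h.c_nonneg (b :: b :: w)
    linarith

lemma Fac.pi_cases (h : Fac a n c P S) {b : α} (hb : b ≠ a) : P [b] = 0 ∨ P [b] = 1 := by
  obtain ⟨m, _, h1 | h1⟩ := h.bseq hb
  · exact Or.inl h1.1
  · exact Or.inr h1.1

lemma coeff_zero_Xs (h : Fac a n c P S) (V : ℤ⟦X⟧) : coeff 0 (Xs a n S V) = 1 - coeff 0 V := by
  rw [Xs]
  have hS := h.S_nil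
  have hi : constantCoeff (invD n) = 1 := by
    rw [← coeff_zero_eq_constantCoeff_apply, invD, coeff_mk]; simp
  simp [hS, hi]

lemma Good_zero_of_nonneg (hS : ∀ w, 0 ≤ S w) : Good a S 0 :=
  ⟨fun i => by simp, fun w => by rw [Y_zero]; exact hS w⟩

/-- the non positive case: structure -/
lemma Fac.neg_case (h : Fac a n c P S) (hP1 : ∀ u, lv a u = 1 → 0 ≤ P u)
    (hneg : ∃ w, S w < 0) :
    (∀ b, b ≠ a → Good a S (pser a b P 0)) ∧
    (∀ V, Good a S V → coeff 0 V = 0 ∨ ∀ b, ¬ b ≠ a) ∧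
    (∀ b, b ≠ a → ∀ j, coeff 0 (pser a b P j) = 0) := by
  obtain ⟨w0, hw0⟩ := hneg
  have hng : ¬ Good a S 0 := by
    intro hg
    have := Fac.good_zero hg w0
    linarith
  have hgp : ∀ b, b ≠ a → Good a S (pser a b P 0) := by
    intro b hb
    have hπ : P [b] = 0 := by
      rcases h.pi_cases hb with h1 | h1
      · exact h1
      · exfalso
        have := h.S_nonneg_of_one hb h1 w0
        linarith
    refine ⟨?_, h.good_p0 hb hπ⟩
    intro i
    rw [coeff_pser]
    exact hP1 _ (by rw [lv_abw hb, lv_aw])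
  have hV0 : ∀ b, b ≠ a → ∀ V, Good a S V → coeff 0 V = 0 := by
    intro b hb V hV
    by_contra hne
    have h1 : 1 ≤ coeff 0 V := by have := hV.1 0; omega
    have h2 : 0 ≤ coeff 0 (Xs a n S V) := Xs_nonneg hV.2 0
    rw [coeff_zero_Xs h] at h2
    have h3 : coeff 0 (Xs a n S V) = 0 := by rw [coeff_zero_Xs h]; omega
    apply hng
    have h4 : Phi a b n P S V 0 = 0 := by
      rw [Phi, Finset.Nat.antidiagonal_zero, Finset.sum_singleton]
      simp only [h3]; simp
    rw [← h4]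
    exact h.good_Phi hP1 hb hV 0
  refine ⟨hgp, ?_, ?_⟩
  · intro V hV
    by_cases hb : ∃ b, b ≠ a
    · obtain ⟨b, hb⟩ := hb
      exact Or.inl (hV0 b hb V hV)
    · right
      intro b hb'
      exact hb ⟨b, hb'⟩
  · intro b hb j
    have hg := hgp b hb
    have hPhi := h.good_Phi hP1 hb hg j
    have h1 := hV0 b hb _ hPhi
    have h2 := hV0 b hb _ hg
    have hX0 : coeff 0 (Xs a n S (pser a b P 0)) = 1 := by
      rw [coeff_zero_Xs h, h2]; ring
    rw [Phi, map_sum] at h1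
    have hmem : (0, j) ∈ Finset.HasAntidiagonal.antidiagonal j := by simp
    have hnn : ∀ p ∈ Finset.HasAntidiagonal.antidiagonal j,
        0 ≤ coeff 0 (C (coeff p.1 (Xs a n S (pser a b P 0))) * pser a b P p.2) := by
      intro p _
      rw [coeff_C_mul]
      apply mul_nonneg (Xs_nonneg hg.2 _)
      rw [coeff_pser]
      exact hP1 _ (by rw [lv_abw hb, lv_aw])
    have h3 := (Finset.sum_eq_zero_iff_of_nonneg hnn).mp h1 (0, j) hmem
    rw [coeff_C_mul, hX0, one_mul] at h3
    exact h3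

lemma Fac.Phi_ge (h : Fac a n c P S) (hP1 : ∀ u, lv a u = 1 → 0 ≤ P u) {b : α} (hb : b ≠ a)
    {V : ℤ⟦X⟧} (hV : Good a S V) (h0 : coeff 0 V = 0) (i m : ℕ) :
    coeff m (pser a b P i) ≤ coeff m (Phi a b n P S V i) := by
  have hX0 : coeff 0 (Xs a n S V) = 1 := by
    rw [coeff_zero_Xs h, h0]; ring
  rw [Phi, map_sum]
  have hmem : (0, i) ∈ Finset.HasAntidiagonal.antidiagonal i := by simp
  have hnn : ∀ p ∈ Finset.HasAntidiagonal.antidiagonal i,
      0 ≤ coeff m (C (coeff p.1 (Xs a n S V)) * pser a b P p.2) := by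
    intro p _
    rw [coeff_C_mul]
    apply mul_nonneg (Xs_nonneg hV.2 _)
    rw [coeff_pser]
    exact hP1 _ (by rw [lv_abw hb, lv_aw])
  have h5 := Finset.single_le_sum hnn hmem
  rw [coeff_C_mul, hX0, one_mul] at h5
  exact h5

/-- In the non positive case, the `a`-part of `P` is nonnegative. -/
lemma Fac.P0_nonneg (h : Fac a n c P S) (hP1 : ∀ u, lv a u = 1 → 0 ≤ P u) {b : α} (hb : b ≠ a)
    {K : ℕ} (hK : ∀ w, K < lv a w → S w = 0) (hKne : ∃ s, lv a s = K ∧ S s ≠ 0)
    (hSK : ∀ s, lv a s = K → 0 ≤ S s) (hneg : ∃ w, S w < 0) (i : ℕ) : 0 ≤ P (aw a i) := by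
  obtain ⟨hgp, hV0, hpj⟩ := h.neg_case hP1 hneg
  have hV0' : ∀ V, Good a S V → coeff 0 V = 0 := by
    intro V hV
    rcases hV0 V hV with h1 | h1
    · exact h1
    · exact absurd hb (h1 b)
  by_contra hcon
  push Not at hcon
  obtain ⟨s0, hs0, hSs0⟩ := hKne
  cases K with
  | zero =>
    have h1 := h.c_abw hb i []
    rw [bser_eq_zero hb hK (by simp)] at h1
    simp only [mul_zero, sub_zero] at h1
    rw [coeff_mul_C, theta, hpj b hb i, h.S_nil, coeff_aser] at h1
    have := h.c_nonneg (abw a b i [])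
    linarith
  | succ K =>
    obtain ⟨b', l, v, hb', rfl, hv⟩ := level_succ hs0
    classical
    have hex : ∃ l, S (abw a b' l v) ≠ 0 := ⟨l, hSs0⟩
    obtain ⟨j, hj1, hj2⟩ : ∃ j, S (abw a b' j v) ≠ 0 ∧ ∀ l, l < j → S (abw a b' l v) = 0 := by
      refine ⟨Nat.find hex, Nat.find_spec hex, ?_⟩
      intro m hm
      have := Nat.find_min hex hm
      push Not at this
      exact this
    have hSw : 1 ≤ S (abw a b' j v) := by
      have := hSK (abw a b' j v) (by rw [lv_abw hb', hv])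
      omega
    have hlt : ∀ l, l < j → coeff l ((1 - X) * bser a b' S v) = 0 := by
      intro l hl
      rw [sub_mul, one_mul, map_sub]
      cases l with
      | zero => rw [coeff_zero_X_mul, coeff_bser, hj2 0 hl]; ring
      | succ l => rw [coeff_succ_X_mul, coeff_bser, coeff_bser, hj2 _ hl, hj2 l (by omega)]; ring
    have hsub : ∀ V : ℤ⟦X⟧, coeff 0 V = 0 →
        coeff j (V * (C (S v) - (1 - X) * bser a b' S v)) = coeff j V * S v := by
      intro V hV
      rw [mul_sub, map_sub, coeff_mul_C, coeff_mul_of_lt _ _ _ hlt, hV]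
      ring
    have h1 := h.c_abw hb i (abw a b' j v)
    rw [bser_eq_zero hb hK (by rw [lv_abw hb', hv]), theta_abw hb', bser_R,
      hsub _ (hpj b hb i)] at h1
    simp only [mul_zero, sub_zero] at h1
    rw [coeff_mul_C, coeff_aser] at h1
    have h2 := h.c_nonneg (abw a b i (abw a b' j v))
    have h3 : 0 ≤ coeff j (pser a b P i) := by
      rw [coeff_pser]; exact hP1 _ (by rw [lv_abw hb, lv_aw])
    have h4 : 1 ≤ coeff j (pser a b P i) * S v := by nlinarith
    have h5 : 1 ≤ coeff j (pser a b P i) := by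
      rcases eq_or_lt_of_le h3 with h6 | h6
      · rw [← h6] at h4; norm_num at h4
      · omega
    have h6 : 1 ≤ S v := by
      by_contra h7
      push Not at h7
      have h8 : S v ≤ 0 := by omega
      have := mul_nonpos_of_nonneg_of_nonpos h3 h8
      linarith
    have hG := h.good_Phi hP1 hb (hgp b hb) i
    have h7 := h.Phi_ge hP1 hb (hgp b hb) (hV0' _ (hgp b hb)) i j
    have h8 := h.Y_le' hP1 hb hG (abw a b' j v)
    rw [Y_abw hb', map_add, hsub _ (hV0' _ hG), coeff_bser] at h8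
    nlinarith

/-- In the non positive case, the `a`-part of `P` is at most one. -/
lemma Fac.P0_le (h : Fac a n c P S) (hP1 : ∀ u, lv a u = 1 → 0 ≤ P u) {b : α} (hb : b ≠ a)
    (hP0 : ∀ i, 0 ≤ P (aw a i)) (hneg : ∃ w, S w < 0) (i : ℕ) : P (aw a i) ≤ 1 := by
  obtain ⟨hgp, hV0, hpj⟩ := h.neg_case hP1 hneg
  have hg := hgp b hb
  have h0 : coeff 0 (pser a b P 0) = 0 := hpj b hb 0
  have hX0 : coeff 0 (Xs a n S (pser a b P 0)) = 1 := by
    rw [coeff_zero_Xs h, h0]; ring
  have h1 : coeff i (Xs a n S (pser a b P 0) * aser a P) =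
      coeff i (PowerSeries.mk 1 - pser a b P 0) := by
    rw [h.Xs_mul_P]
  rw [coeff_mul, map_sub, coeff_mk] at h1
  have hmem : (0, i) ∈ Finset.HasAntidiagonal.antidiagonal i := by simp
  have hnn : ∀ p ∈ Finset.HasAntidiagonal.antidiagonal i,
      0 ≤ coeff p.1 (Xs a n S (pser a b P 0)) * coeff p.2 (aser a P) := by
    intro p _
    exact mul_nonneg (Xs_nonneg hg.2 _) (by rw [coeff_aser]; exact hP0 _)
  have h2 := Finset.single_le_sum hnn hmem
  rw [h1] at h2
  simp only [hX0, one_mul, coeff_aser, Pi.one_apply] at h2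
  have h3 : 0 ≤ coeff i (pser a b P 0) := hg.1 i
  linarith

/-- In the non positive case, all coefficients of `P` are at most one. -/
lemma Fac.P_le (h : Fac a n c P S) (hP1 : ∀ u, lv a u = 1 → 0 ≤ P u) {b : α} (hb : b ≠ a)
    (hP0 : ∀ i, 0 ≤ P (aw a i)) (hneg : ∃ w, S w < 0) (w : List α) : P w ≤ 1 := by
  rcases Nat.lt_or_ge (lv a w) 2 with h1 | h1
  · rcases Nat.lt_or_ge (lv a w) 1 with h2 | h2
    · obtain ⟨i, rfl⟩ := level_zero (a := a) (u := w) (by omega)
      exact h.P0_le hP1 hb hP0 hneg i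
    · obtain ⟨b', i, m, hb', rfl⟩ := level_one (a := a) (u := w) (by omega)
      obtain ⟨hgp, hV0, hpj⟩ := h.neg_case hP1 hneg
      have hg := hgp b' hb'
      have hG := h.good_Phi hP1 hb' hg i
      have h3 := h.Phi_ge hP1 hb' hg (hpj b' hb' 0) i m
      have h4 : coeff m (Xs a n S (Phi a b' n P S (pser a b' P 0) i) * aser a P) =
          coeff m (PowerSeries.mk 1 - Phi a b' n P S (pser a b' P 0) i) := by
        rw [h.Xs_mul_P]
      rw [coeff_mul, map_sub, coeff_mk] at h4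
      have h5 : 0 ≤ ∑ p ∈ Finset.HasAntidiagonal.antidiagonal m,
          coeff p.1 (Xs a n S (Phi a b' n P S (pser a b' P 0) i)) * coeff p.2 (aser a P) :=
        Finset.sum_nonneg (fun p _ =>
          mul_nonneg (Xs_nonneg hG.2 _) (by rw [coeff_aser]; exact hP0 _))
      rw [h4] at h5
      simp only [Pi.one_apply] at h5
      rw [coeff_pser] at h3
      linarith
  · rw [h.P_lv w h1]; norm_num

/-- level zero case -/
lemma Fac.level0 (h : Fac a n c P S) {b : α} (hb : b ≠ a) (hP : ∀ u, 1 ≤ lv a u → P u = 0)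
    {K : ℕ} (hK : ∀ w, K < lv a w → S w = 0) (hKne : ∃ s, lv a s = K ∧ S s ≠ 0) :
    (∀ w, 0 ≤ S w) ∧ ∀ w, 0 ≤ P w := by
  have hp : ∀ i, pser a b P i = 0 := by
    intro i
    ext m
    rw [coeff_pser, hP _ (by rw [lv_abw hb]; omega)]
    simp
  have hS : ∀ w, 0 ≤ S w := by
    obtain ⟨N, hN⟩ := h.fin
    apply nonneg_of_step _ N
    · intro w hw
      rw [(hN w hw).2]
    · intro w
      refine ⟨b :: w, by simp, ?_⟩
      have h1 := h.star hb w
      rw [hp, Y_zero] at h1
      have := h.c_nonneg (b :: w)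
      linarith
  refine ⟨hS, ?_⟩
  intro w
  by_cases hw : 1 ≤ lv a w
  · rw [hP w hw]
  · obtain ⟨i, rfl⟩ := level_zero (a := a) (u := w) (by omega)
    obtain ⟨s0, hs0, hSs0⟩ := hKne
    have hpos : 0 < S s0 := lt_of_le_of_ne (hS s0) (Ne.symm hSs0)
    have h1 := h.c_abw hb i s0
    rw [bser_eq_zero hb hK (by omega), hp, theta_zero] at h1
    simp only [mul_zero, sub_zero, add_zero] at h1
    rw [coeff_mul_C, coeff_aser] at h1
    have h2 := h.c_nonneg (abw a b i s0)
    rw [h1] at h2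
    exact nonneg_of_mul_nonneg_left h2 hpos

/-- **Half positivity** -/
theorem Fac.half (h : Fac a n c P S) {b : α} (hb : b ≠ a) {K : ℕ}
    (hK : ∀ w, K < lv a w → S w = 0) (hKne : ∃ s, lv a s = K ∧ S s ≠ 0)
    (hPne : ∃ u, lv a u = 1 ∧ P u ≠ 0) :
    ((∀ w, 0 ≤ S w) ∧ ∀ w, S w ≤ 1) ∨ ((∀ w, 0 ≤ P w) ∧ ∀ w, P w ≤ 1) := by
  obtain ⟨hP1, hSK⟩ := h.sign hb hK hKne hPne
  by_cases hneg : ∃ w, S w < 0
  · right
    have hP0 := h.P0_nonneg hP1 hb hK hKne hSK hneg
    refine ⟨?_, h.P_le hP1 hb hP0 hneg⟩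
    intro w
    rcases Nat.lt_or_ge (lv a w) 2 with h1 | h1
    · rcases Nat.lt_or_ge (lv a w) 1 with h2 | h2
      · obtain ⟨i, rfl⟩ := level_zero (a := a) (u := w) (by omega)
        exact hP0 i
      · exact hP1 w (by omega)
    · rw [h.P_lv w h1]
  · left
    push Not at hneg
    refine ⟨hneg, ?_⟩
    intro w
    have := h.Y_le' hP1 hb (Good_zero_of_nonneg (a := a) hneg) w
    rwa [Y_zero] at this

/-- **Levels at most two**: if the `a`-parts are nonnegative then `S` is nonnegative. -/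
theorem Fac.small (h : Fac a n c P S) {b : α} (hb : b ≠ a) {K : ℕ}
    (hK : ∀ w, K < lv a w → S w = 0) (hKne : ∃ s, lv a s = K ∧ S s ≠ 0)
    (hPne : ∃ u, lv a u = 1 ∧ P u ≠ 0) (hK2 : K ≤ 2)
    (hP0 : ∀ i, 0 ≤ P (aw a i)) (hS0 : ∀ i, 0 ≤ S (aw a i)) : ∀ w, 0 ≤ S w := by
  obtain ⟨hP1, hSK⟩ := h.sign hb hK hKne hPne
  by_contra hcon
  push Not at hcon
  obtain ⟨w0, hw0⟩ := hcon
  have hneg : ∃ w, S w < 0 := ⟨w0, hw0⟩
  obtain ⟨hgp, hV0, hpj⟩ := h.neg_case hP1 hneg
  have hng : ¬ Good a S 0 := by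
    intro hg
    have := Fac.good_zero hg w0
    linarith
  have hg := hgp b hb
  have hpne : pser a b P 0 ≠ 0 := by
    intro h0; rw [h0] at hg; exact hng hg
  obtain ⟨l, hl⟩ : ∃ l, coeff l (pser a b P 0) ≠ 0 := by
    by_contra hc
    push Not at hc
    exact hpne (PowerSeries.ext (by simpa using hc))
  have hl1 : 1 ≤ coeff l (pser a b P 0) := by have := hg.1 l; omega
  have hXP : ∀ p ∈ Finset.HasAntidiagonal.antidiagonal l,
      coeff p.1 (Xs a n S (pser a b P 0)) * coeff p.2 (aser a P) = 0 := by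
    have h1 : coeff l (Xs a n S (pser a b P 0) * aser a P) =
        coeff l (PowerSeries.mk 1 - pser a b P 0) := by
      rw [h.Xs_mul_P]
    rw [coeff_mul, map_sub, coeff_mk] at h1
    have hnn : ∀ p ∈ Finset.HasAntidiagonal.antidiagonal l,
        0 ≤ coeff p.1 (Xs a n S (pser a b P 0)) * coeff p.2 (aser a P) := by
      intro p _
      exact mul_nonneg (Xs_nonneg hg.2 _) (by rw [coeff_aser]; exact hP0 _)
    have h2 := Finset.sum_nonneg hnn
    rw [h1] at h2
    simp only [Pi.one_apply] at h2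
    have h3 : (1 : ℤ) - coeff l (pser a b P 0) = 0 := by linarith
    rw [Pi.one_apply, h3] at h1
    exact (Finset.sum_eq_zero_iff_of_nonneg hnn).mp h1
  -- there is `i` with `P a^i = 0` and a nonzero row
  obtain ⟨i, hPi, hpi⟩ : ∃ i, P (aw a i) = 0 ∧ pser a b P i ≠ 0 := by
    by_contra hc
    push Not at hc
    apply hng
    have : Phi a b n P S (pser a b P 0) l = 0 := by
      rw [Phi]
      apply Finset.sum_eq_zero
      intro p hp
      rcases mul_eq_zero.mp (hXP p hp) with h4 | h4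
      · rw [h4]; simp
      · rw [coeff_aser] at h4
        rw [hc _ h4, mul_zero]
    rw [← this]
    exact h.good_Phi hP1 hb hg l
  have hlev : ∀ v, lv a v + 1 = K → 0 ≤ S v := by
    intro v hv
    obtain ⟨N, hN⟩ := h.fin
    obtain ⟨p, g, hp, hgg, he, hev⟩ := key_eval (pser a b P i) (bser a b S v) (S v) N
      (by
        intro j hj
        rw [coeff_pser]
        exact (hN _ (by simp; omega)).1)
      (by
        intro j hj
        rw [coeff_bser]
        exact (hN _ (by simp; omega)).2)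
    have h1 : ∀ r, 0 ≤ (p * (Polynomial.C (S v) - (1 - Polynomial.X) * g)).coeff r := by
      intro r
      rw [← Polynomial.coeff_coe, he]
      have h2 := h.c_abw hb i (abw a b r v)
      rw [bser_eq_zero hb hK (by rw [lv_abw hb]; omega), theta_abw hb, bser_R] at h2
      simp only [mul_zero, sub_zero] at h2
      rw [coeff_mul_C, coeff_aser, hPi, zero_mul, zero_add] at h2
      rw [← h2]
      exact h.c_nonneg _
    have h2 := eval_one_nonneg _ h1
    rw [hev] at h2
    have h4 : 1 ≤ p.eval 1 := by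
      apply eval_one_pos
      · intro j
        rw [← Polynomial.coeff_coe, hp, coeff_pser]
        exact hP1 (abw a b i (aw a j)) (by rw [lv_abw hb, lv_aw])
      · intro h0
        apply hpi
        rw [← hp, h0]
        simp
    exact nonneg_of_mul_nonneg_right h2 (by linarith)
  have : 0 ≤ S w0 := by
    rcases Nat.lt_trichotomy (lv a w0) K with h1 | h1 | h1
    · rcases Nat.eq_or_lt_of_le (Nat.succ_le_of_lt h1) with h2 | h2
      · exact hlev w0 h2
      · obtain ⟨i, rfl⟩ := level_zero (a := a) (u := w0) (by omega)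
        exact hS0 i
    · exact hSK w0 h1
    · rw [hK w0 h1]
  linarith

end fac

end H42Sch
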