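import Mathlib

set_option autoImplicit false
set_option linter.unusedSectionVars false
set_option linter.unusedSimpArgs false
set_option linter.unnecessarySimpa false

namespace H42Sch

open Polynomial

/-- every zero-one polynomial `U` with `U W = 1 + X + ... + X^(n-1)` has a cofactor `W ≥ 0` -/
def PropN (n : ℕ) : Prop :=
  ∀ U W : ℤ[X], U * W * (X - 1) = X ^ n - 1 → (∀ i, U.coeff i = 0 ∨ U.coeff i = 1) →
    ∀ i, 0 ≤ W.coeff i

/-- nonnegative coefficients -/
def NNp (p : ℤ[X]) : Prop := ∀ i, 0 ≤ p.coeff i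

lemma NNp.mul {p q : ℤ[X]} (hp : NNp p) (hq : NNp q) : NNp (p * q) := by
  intro i
  rw [Polynomial.coeff_mul]
  exact Finset.sum_nonneg (fun x _ => mul_nonneg (hp _) (hq _))

lemma NNp.one : NNp (1 : ℤ[X]) := by
  intro i; rw [Polynomial.coeff_one]; split_ifs <;> norm_num

lemma NNp.prod {ι : Type} (s : Finset ι) (f : ι → ℤ[X]) (h : ∀ i ∈ s, NNp (f i)) :
    NNp (∏ i ∈ s, f i) := by
  classical
  induction s using Finset.induction_on with
  | empty => simpa using NNp.one
  | insert i s hi ih =>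
    rw [Finset.prod_insert hi]
    exact (h i (Finset.mem_insert_self i s)).mul (ih (fun j hj => h j (Finset.mem_insert_of_mem hj)))

lemma NNp.geom (m k : ℕ) : NNp (∑ i ∈ Finset.range k, ((X : ℤ[X]) ^ m) ^ i) := by
  intro i
  rw [Polynomial.finsetSum_coeff]
  apply Finset.sum_nonneg
  intro j _
  rw [← pow_mul, Polynomial.coeff_X_pow]
  split_ifs <;> norm_num

lemma prime_split {f g U W : ℤ[X]} (hf : Prime f) (h : U * W = f * g) :
    (∃ U', U = f * U' ∧ U' * W = g) ∨ (∃ W', W = f * W' ∧ U * W' = g) := by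
  have hd : f ∣ U * W := ⟨g, h⟩
  rcases hf.dvd_or_dvd hd with ⟨U', hU⟩ | ⟨W', hW⟩
  · left
    refine ⟨U', hU, ?_⟩
    rw [hU, mul_assoc] at h
    exact mul_left_cancel₀ hf.ne_zero h
  · right
    refine ⟨W', hW, ?_⟩
    rw [hW, mul_left_comm] at h
    exact mul_left_cancel₀ hf.ne_zero h

lemma unit_split {U W : ℤ[X]} (h : U * W = 1) : ∃ e : ℤ, (e = 1 ∨ e = -1) ∧ U = C e ∧ W = C e := by
  have hu : IsUnit U := IsUnit.of_mul_eq_one W h
  obtain ⟨e, he, rfl⟩ := Polynomial.isUnit_iff.mp hu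
  have he' := Int.isUnit_iff.mp he
  refine ⟨e, he', rfl, ?_⟩
  have h2 : (C e : ℤ[X]) * C e = 1 := by
    rcases he' with rfl | rfl <;> simp
  calc W = (C e * C e) * W := by rw [h2, one_mul]
    _ = C e * (C e * W) := by ring
    _ = C e := by rw [h, mul_one]

lemma split_prod {ι : Type} [DecidableEq ι] (f : ι → ℤ[X]) (s : Finset ι)
    (hf : ∀ i ∈ s, Prime (f i)) : ∀ U W : ℤ[X], U * W = ∏ i ∈ s, f i →
    ∃ t ⊆ s, ∃ e : ℤ, (e = 1 ∨ e = -1) ∧ U = C e * ∏ i ∈ t, f i ∧ W = C e * ∏ i ∈ s \ t, f i := by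
  induction s using Finset.induction_on with
  | empty =>
    intro U W h
    rw [Finset.prod_empty] at h
    obtain ⟨e, he, hU, hW⟩ := unit_split h
    exact ⟨∅, le_rfl, e, he, by simp [hU], by simp [hW]⟩
  | insert i s hi ih =>
    intro U W h
    rw [Finset.prod_insert hi] at h
    rcases prime_split (hf i (Finset.mem_insert_self i s)) h with ⟨U', hU, h'⟩ | ⟨W', hW, h'⟩
    · obtain ⟨t, hts, e, he, hU', hW'⟩ :=
        ih (fun j hj => hf j (Finset.mem_insert_of_mem hj)) U' W h'
      have hit : i ∉ t := fun hh => hi (hts hh)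
      refine ⟨insert i t, Finset.insert_subset_insert i hts, e, he, ?_, ?_⟩
      · rw [hU, hU', Finset.prod_insert hit]; ring
      · rw [hW']
        congr 1
        apply Finset.prod_congr _ (fun _ _ => rfl)
        ext j
        simp only [Finset.mem_sdiff, Finset.mem_insert]
        constructor
        · rintro ⟨h1, h2⟩
          refine ⟨Or.inr h1, ?_⟩
          rintro (h3 | h3)
          · subst h3; exact hi h1
          · exact h2 h3
        · rintro ⟨h1 | h1, h2⟩
          · exact absurd (Or.inl h1) h2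
          · exact ⟨h1, fun h3 => h2 (Or.inr h3)⟩
    · obtain ⟨t, hts, e, he, hU', hW'⟩ :=
        ih (fun j hj => hf j (Finset.mem_insert_of_mem hj)) U W' h'
      have hit : i ∉ t := fun hh => hi (hts hh)
      refine ⟨t, hts.trans (Finset.subset_insert i s), e, he, hU', ?_⟩
      have hi' : i ∉ s \ t := fun hh => hi (Finset.mem_sdiff.mp hh).1
      have : insert i s \ t = insert i (s \ t) := by
        rw [Finset.insert_sdiff_of_notMem s hit]
      rw [hW, hW', this, Finset.prod_insert hi']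
      ring

lemma X_sub_one_ne : (X - 1 : ℤ[X]) ≠ 0 := by
  intro h
  have := congrArg (fun p : ℤ[X] => p.coeff 1) h
  simp [Polynomial.coeff_one] at this

lemma coeff_zero_mul_eq {n : ℕ} (hn : 1 ≤ n) {U W : ℤ[X]} (h : U * W * (X - 1) = X ^ n - 1) :
    U.coeff 0 * W.coeff 0 = 1 := by
  have h1 := congrArg (fun p : ℤ[X] => p.coeff 0) h
  have hn' : ¬ 0 = n := by omega
  simp only [Polynomial.mul_coeff_zero, Polynomial.coeff_sub, Polynomial.coeff_X_zero,
    Polynomial.coeff_one_zero, Polynomial.coeff_X_pow, if_neg hn'] at h1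
  linarith

lemma cyc_prime {m : ℕ} (hm : 0 < m) : Prime (cyclotomic m ℤ) :=
  (cyclotomic.irreducible hm).prime

theorem propN_prime_pow (p k : ℕ) (hp : p.Prime) : PropN (p ^ k) := by
  intro U W h hU i
  have := Fact.mk hp
  have hpos : 1 ≤ p ^ k := Nat.one_le_pow _ _ hp.pos
  have hprod : (X : ℤ[X]) ^ (p ^ k) - 1 =
      (∏ j ∈ Finset.range k, cyclotomic (p ^ (j + 1)) ℤ) * (X - 1) := by
    clear h hpos
    induction k with
    | zero => simp
    | succ k ih =>
      rw [← cyclotomic_prime_pow_mul_X_pow_sub_one, ih, Finset.prod_range_succ]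
      ring
  have h2 : U * W = ∏ j ∈ Finset.range k, cyclotomic (p ^ (j + 1)) ℤ := by
    rw [hprod] at h
    exact mul_right_cancel₀ X_sub_one_ne h
  have hNN : ∀ j, NNp (cyclotomic (p ^ (j + 1)) ℤ) := by
    intro j
    rw [cyclotomic_prime_pow_eq_geom_sum hp]
    exact NNp.geom _ _
  obtain ⟨t, hts, e, he, hUe, hWe⟩ := split_prod _ _
    (fun j _ => cyc_prime (pow_pos hp.pos (j+1))) U W h2
  have hU0 : U.coeff 0 = 1 := by
    have h3 := coeff_zero_mul_eq hpos h
    rcases hU 0 with h4 | h4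
    · rw [h4, zero_mul] at h3; norm_num at h3
    · exact h4
  have he1 : e = 1 := by
    rcases he with he | he
    · exact he
    · exfalso
      have h5 := NNp.prod t (fun j => cyclotomic (p ^ (j + 1)) ℤ) (fun j _ => hNN j) 0
      rw [hUe, he, Polynomial.coeff_C_mul] at hU0
      linarith
  rw [hWe, he1, Polynomial.coeff_C_mul, one_mul]
  exact NNp.prod _ _ (fun j _ => hNN j) i

theorem propN_pq (p q : ℕ) (hp : p.Prime) (hq : q.Prime) (hne : p ≠ q) : PropN (p * q) := by
  intro U W h hU i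
  have := Fact.mk hp
  have := Fact.mk hq
  have hpq1 : 1 ≤ p * q := Nat.mul_pos hp.pos hq.pos
  have hpq2 : 1 < p * q := by
    have := hp.two_le
    have := hq.two_le
    nlinarith
  have hqp : ¬ q ∣ p := fun hd => hne ((Nat.prime_dvd_prime_iff_eq hq hp).mp hd).symm
  have hpq : ¬ p ∣ q := fun hd => hne ((Nat.prime_dvd_prime_iff_eq hp hq).mp hd)
  have e1 : expand ℤ q (cyclotomic p ℤ) = cyclotomic (p * q) ℤ * cyclotomic p ℤ :=
    cyclotomic_expand_eq_cyclotomic_mul hq hqp ℤ
  have e2 : expand ℤ p (cyclotomic q ℤ) = cyclotomic (q * p) ℤ * cyclotomic q ℤ :=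
    cyclotomic_expand_eq_cyclotomic_mul hp hpq ℤ
  rw [mul_comm q p] at e2
  have hprod : (X : ℤ[X]) ^ (p * q) - 1 =
      (cyclotomic p ℤ * (cyclotomic q ℤ * (cyclotomic (p * q) ℤ * 1))) * (X - 1) := by
    have h3 : expand ℤ q (cyclotomic p ℤ * (X - 1)) = X ^ (p * q) - 1 := by
      rw [cyclotomic_prime_mul_X_sub_one]
      simp [← pow_mul, mul_comm]
    rw [map_mul, e1] at h3
    have h4 : expand ℤ q (X - 1 : ℤ[X]) = cyclotomic q ℤ * (X - 1) := by
      rw [cyclotomic_prime_mul_X_sub_one]; simp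
    rw [← h3, h4]; ring
  have h2 : U * W = cyclotomic p ℤ * (cyclotomic q ℤ * (cyclotomic (p * q) ℤ * 1)) := by
    rw [hprod] at h
    exact mul_right_cancel₀ X_sub_one_ne h
  have hU0 : U.coeff 0 = 1 := by
    have h3 := coeff_zero_mul_eq hpq1 h
    rcases hU 0 with h4 | h4
    · rw [h4, zero_mul] at h3; norm_num at h3
    · exact h4
  have c0p : (cyclotomic p ℤ).coeff 0 = 1 := cyclotomic_coeff_zero ℤ hp.one_lt
  have c0q : (cyclotomic q ℤ).coeff 0 = 1 := cyclotomic_coeff_zero ℤ hq.one_lt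
  have c0pq : (cyclotomic (p * q) ℤ).coeff 0 = 1 := cyclotomic_coeff_zero ℤ hpq2
  have c1 : ∀ r : ℕ, r.Prime → (cyclotomic r ℤ).coeff 1 = 1 := by
    intro r hr
    have := Fact.mk hr
    rw [cyclotomic_prime, Polynomial.finsetSum_coeff, Finset.sum_eq_single 1]
    · simp
    · intro j _ hj
      rw [Polynomial.coeff_X_pow, if_neg (Ne.symm hj)]
    · intro h1
      exact absurd (Finset.mem_range.mpr hr.one_lt) h1
  have nnp : ∀ r : ℕ, r.Prime → NNp (cyclotomic r ℤ) := by
    intro r hr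
    have := Fact.mk hr
    rw [cyclotomic_prime]
    simpa using NNp.geom 1 r
  have np := nnp p hp
  have nq := nnp q hq
  have hexp : ∀ (r : ℕ) (f : ℤ[X]), 0 < r → NNp f → NNp (expand ℤ r f) := by
    intro r f hr hf j
    rw [Polynomial.coeff_expand hr]
    split_ifs
    · exact hf _
    · exact le_rfl
  have npq1 : NNp (cyclotomic (p * q) ℤ * cyclotomic p ℤ) := by
    rw [← e1]; exact hexp _ _ hq.pos np
  have npq2 : NNp (cyclotomic (p * q) ℤ * cyclotomic q ℤ) := by
    rw [← e2]; exact hexp _ _ hp.pos nq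
  rcases prime_split (cyc_prime hp.pos) h2 with ⟨U1, hU1, h3⟩ | ⟨W1, hW1, h3⟩ <;>
  rcases prime_split (cyc_prime hq.pos) h3 with ⟨U2, hU2, h4⟩ | ⟨W2, hW2, h4⟩ <;>
  rcases prime_split (cyc_prime hpq1) h4 with ⟨U3, hU3, h5⟩ | ⟨W3, hW3, h5⟩ <;>
  obtain ⟨e, he, hUe, hWe⟩ := unit_split h5
  · -- W = C e
    have he1 : e = 1 := by
      rw [hU1, hU2, hU3, hUe] at hU0
      simp only [Polynomial.mul_coeff_zero, c0p, c0q, c0pq, Polynomial.coeff_C_zero] at hU0
      linarith
    rw [hWe, he1]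
    simpa using NNp.one i
  · -- U = Φp Φq e : impossible
    exfalso
    rw [hU1, hU2, hUe] at hU0 hU
    simp only [Polynomial.mul_coeff_zero, c0p, c0q, c0pq, Polynomial.coeff_C_zero] at hU0
    have he1 : e = 1 := by linarith
    have h6 := hU 1
    rw [he1] at h6
    simp only [map_one, mul_one] at h6
    rw [Polynomial.mul_coeff_one, c0p, c0q, c1 p hp, c1 q hq] at h6
    norm_num at h6
  · have he1 : e = 1 := by
      rw [hU1, hU3, hUe] at hU0
      simp only [Polynomial.mul_coeff_zero, c0p, c0q, c0pq, Polynomial.coeff_C_zero] at hU0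
      linarith
    rw [hW2, hWe, he1, map_one, mul_one]
    exact nq i
  · have he1 : e = 1 := by
      rw [hU1, hUe] at hU0
      simp only [Polynomial.mul_coeff_zero, c0p, c0q, c0pq, Polynomial.coeff_C_zero] at hU0
      linarith
    rw [hW2, hW3, hWe, he1, map_one, mul_one, mul_comm]
    exact npq2 i
  · have he1 : e = 1 := by
      rw [hU2, hU3, hUe] at hU0
      simp only [Polynomial.mul_coeff_zero, c0p, c0q, c0pq, Polynomial.coeff_C_zero] at hU0
      linarith
    rw [hW1, hWe, he1, map_one, mul_one]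
    exact np i
  · have he1 : e = 1 := by
      rw [hU2, hUe] at hU0
      simp only [Polynomial.mul_coeff_zero, c0p, c0q, c0pq, Polynomial.coeff_C_zero] at hU0
      linarith
    rw [hW1, hW3, hWe, he1, map_one, mul_one, mul_comm]
    exact npq1 i
  · have he1 : e = 1 := by
      rw [hU3, hUe] at hU0
      simp only [Polynomial.mul_coeff_zero, c0p, c0q, c0pq, Polynomial.coeff_C_zero] at hU0
      linarith
    rw [hW1, hW2, hWe, he1, map_one, mul_one]
    exact (np.mul nq) i
  · have he1 : e = 1 := by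
      rw [hUe] at hU0
      simpa using hU0
    rw [hW1, hW2, hW3, hWe, he1, map_one, mul_one]
    have : cyclotomic p ℤ * (cyclotomic q ℤ * cyclotomic (p * q) ℤ) =
        (cyclotomic (p * q) ℤ * cyclotomic p ℤ) * cyclotomic q ℤ := by ring
    rw [this]
    exact (npq1.mul nq) i

end H42Sch
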