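import Pool.Agent.H42Sch.Alg
import Pool.Agent.H42Sch.NT

set_option autoImplicit false
set_option linter.unusedSectionVars false
set_option linter.unusedSimpArgs false
set_option linter.unnecessarySimpa false

namespace H42Sch

variable {α : Type} [DecidableEq α]

section fac

variable {a : α} {n : ℕ} {c P S : List α → ℤ}

/-- a zero-one `a`-part forces the other `a`-part to be nonnegative -/
lemma Fac.cofactor (h : Fac a n c P S) (hN : PropN n) :
    ((∀ i, S (aw a i) = 0 ∨ S (aw a i) = 1) → ∀ i, 0 ≤ P (aw a i)) ∧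
    ((∀ i, P (aw a i) = 0 ∨ P (aw a i) = 1) → ∀ i, 0 ≤ S (aw a i)) := by
  obtain ⟨N, hNN⟩ := h.fin
  obtain ⟨p, hp⟩ := exists_poly (aser a P) N
    (by intro i hi; rw [coeff_aser]; exact (hNN _ (by simpa using hi)).1)
  obtain ⟨s, hs⟩ := exists_poly (aser a S) N
    (by intro i hi; rw [coeff_aser]; exact (hNN _ (by simpa using hi)).2)
  have hpc : ∀ i, p.coeff i = P (aw a i) := by
    intro i; rw [← Polynomial.coeff_coe, hp, coeff_aser]
  have hsc : ∀ i, s.coeff i = S (aw a i) := by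
    intro i; rw [← Polynomial.coeff_coe, hs, coeff_aser]
  have e : p * s * (1 - Polynomial.X) = 1 - Polynomial.X ^ n := by
    have h1 := h.aser_eq
    rw [← hp, ← hs] at h1
    have h2 : ((p * s * (1 - Polynomial.X) : Polynomial ℤ) : PowerSeries ℤ) =
        ((1 - Polynomial.X ^ n : Polynomial ℤ) : PowerSeries ℤ) := by
      push_cast
      exact h1
    exact Polynomial.coe_injective ℤ h2
  have e1 : p * s * (Polynomial.X - 1) = Polynomial.X ^ n - 1 := by linear_combination -e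
  have e2 : s * p * (Polynomial.X - 1) = Polynomial.X ^ n - 1 := by linear_combination -e
  constructor
  · intro h0 i
    rw [← hpc]
    exact hN s p e2 (by intro j; rw [hsc]; exact h0 j) i
  · intro h0 i
    rw [← hsc]
    exact hN p s e1 (by intro j; rw [hpc]; exact h0 j) i

lemma Fac.P_nonneg (h : Fac a n c P S) (hP1 : ∀ u, lv a u = 1 → 0 ≤ P u)
    (hP0 : ∀ i, 0 ≤ P (aw a i)) (w : List α) : 0 ≤ P w := by
  rcases Nat.lt_or_ge (lv a w) 2 with h1 | h1
  · rcases Nat.lt_or_ge (lv a w) 1 with h2 | h2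
    · obtain ⟨i, rfl⟩ := level_zero (a := a) (u := w) (by omega)
      exact hP0 i
    · exact hP1 w (by omega)
  · rw [h.P_lv w h1]

lemma Fac.exists_level_one (h : Fac a n c P S) (h0 : ¬ ∀ u, 1 ≤ lv a u → P u = 0) :
    ∃ u, lv a u = 1 ∧ P u ≠ 0 := by
  push Not at h0
  obtain ⟨u, hu, hu'⟩ := h0
  refine ⟨u, ?_, hu'⟩
  by_contra hne
  exact hu' (h.P_lv u (by omega))

/-- **Main theorem**, one side -/
theorem Fac.main (h : Fac a n c P S) {b : α} (hb : b ≠ a) (hN : PropN n) {K : ℕ}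
    (hK : ∀ w, K < lv a w → S w = 0) (hKne : ∃ s, lv a s = K ∧ S s ≠ 0)
    (hK2 : K ≤ 2 ∨ ∀ u, 1 ≤ lv a u → P u = 0) : (∀ w, 0 ≤ P w) ∧ (∀ w, 0 ≤ S w) := by
  by_cases h0 : ∀ u, 1 ≤ lv a u → P u = 0
  · have := h.level0 hb h0 hK hKne
    exact ⟨this.2, this.1⟩
  · have hK2' : K ≤ 2 := by
      rcases hK2 with h1 | h1
      · exact h1
      · exact absurd h1 h0
    have hPne := h.exists_level_one h0
    obtain ⟨hP1, hSK⟩ := h.sign hb hK hKne hPne
    rcases h.half hb hK hKne hPne with ⟨hS, hS1⟩ | ⟨hP, hPle⟩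
    · refine ⟨h.P_nonneg hP1 ?_, hS⟩
      apply (h.cofactor hN).1
      intro i
      have e1 := hS (aw a i)
      have e2 := hS1 (aw a i)
      omega
    · refine ⟨hP, ?_⟩
      apply h.small hb hK hKne hPne hK2' (fun i => hP _)
      apply (h.cofactor hN).2
      intro i
      have e1 := hP (aw a i)
      have e2 := hPle (aw a i)
      omega

/-- **Half positivity**, one side -/
theorem Fac.half_main (h : Fac a n c P S) {b : α} (hb : b ≠ a) {K : ℕ}
    (hK : ∀ w, K < lv a w → S w = 0) (hKne : ∃ s, lv a s = K ∧ S s ≠ 0) :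
    ((∀ w, 0 ≤ S w) ∧ ∀ w, S w ≤ 1) ∨ ((∀ w, 0 ≤ P w) ∧ ∀ w, P w ≤ 1) ∨
      ((∀ w, 0 ≤ P w) ∧ (∀ w, 0 ≤ S w)) := by
  by_cases h0 : ∀ u, 1 ≤ lv a u → P u = 0
  · have := h.level0 hb h0 hK hKne
    exact Or.inr (Or.inr ⟨this.2, this.1⟩)
  · rcases h.half hb hK hKne (h.exists_level_one h0) with h1 | h1
    · exact Or.inl h1
    · exact Or.inr (Or.inl h1)

/-- **Reduction to the `a`-parts**, one side -/
theorem Fac.reduction (h : Fac a n c P S) {b : α} (hb : b ≠ a) {K : ℕ}
    (hK : ∀ w, K < lv a w → S w = 0) (hKne : ∃ s, lv a s = K ∧ S s ≠ 0)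
    (hK2 : K ≤ 2 ∨ ∀ u, 1 ≤ lv a u → P u = 0)
    (hP0 : ∀ i, 0 ≤ P (aw a i)) (hS0 : ∀ i, 0 ≤ S (aw a i)) :
    (∀ w, 0 ≤ P w) ∧ (∀ w, 0 ≤ S w) := by
  by_cases h0 : ∀ u, 1 ≤ lv a u → P u = 0
  · have := h.level0 hb h0 hK hKne
    exact ⟨this.2, this.1⟩
  · have hK2' : K ≤ 2 := by
      rcases hK2 with h1 | h1
      · exact h1
      · exact absurd h1 h0
    have hPne := h.exists_level_one h0
    obtain ⟨hP1, hSK⟩ := h.sign hb hK hKne hPne
    exact ⟨h.P_nonneg hP1 hP0, h.small hb hK hKne hPne hK2' hP0 hS0⟩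

end fac

lemma lv_le_length (a : α) (w : List α) : lv a w ≤ w.length := by
  induction w with
  | nil => simp
  | cons x w ih =>
    simp only [lv, List.length_cons]
    split_ifs <;> omega

lemma lv_append (a : α) (u v : List α) : lv a (u ++ v) = lv a u + lv a v := by
  induction u with
  | nil => simp
  | cons x u ih =>
    simp only [List.cons_append, lv, ih]
    omega

lemma lv_reverse (a : α) (u : List α) : lv a u.reverse = lv a u := by
  induction u with
  | nil => simp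
  | cons x u ih =>
    rw [List.reverse_cons, lv_append, ih]
    simp only [lv]
    omega

lemma exists_top (a : α) (F : List α → ℤ) (hfin : ∃ N, ∀ w : List α, N ≤ w.length → F w = 0)
    (hne : ∃ w, F w ≠ 0) : ∃ K, (∀ w, K < lv a w → F w = 0) ∧ ∃ s, lv a s = K ∧ F s ≠ 0 := by
  classical
  obtain ⟨N, hN⟩ := hfin
  have hex : ∃ K, ∀ w, K < lv a w → F w = 0 :=
    ⟨N, fun w hw => hN w (by have := lv_le_length a w; omega)⟩
  refine ⟨Nat.find hex, Nat.find_spec hex, ?_⟩
  rcases Nat.eq_zero_or_pos (Nat.find hex) with h0 | h0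
  · obtain ⟨w, hw⟩ := hne
    refine ⟨w, ?_, hw⟩
    by_contra hcon
    exact hw (Nat.find_spec hex w (by omega))
  · have h1 := Nat.find_min hex (m := Nat.find hex - 1) (by omega)
    push Not at h1
    obtain ⟨w, hw1, hw2⟩ := h1
    refine ⟨w, ?_, hw2⟩
    have h2 : ¬ Nat.find hex < lv a w := fun h3 => hw2 (Nat.find_spec hex w h3)
    omega

/-- the top product in general -/
lemma conv_top {a b : α} (hb : b ≠ a) (S : List α → ℤ) {K : ℕ}
    (hK : ∀ w, K < lv a w → S w = 0) {s : List α} (hs : lv a s = K) :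
    ∀ (u : List α) (P : List α → ℤ), (∀ v, lv a u < lv a v → P v = 0) →
      conv (u ++ b :: s) P (R S) = P u * S s := by
  intro u
  induction u with
  | nil =>
    intro P hP
    rw [List.nil_append, conv, R, hK (b :: s) (by rw [lv_cons_ne hb]; omega), conv_congr_zero]
    · ring
    · intro v
      exact hP _ (by rw [lv_cons_ne hb]; simp)
  | cons x u ih =>
    intro P hP
    rw [List.cons_append, conv, ih (fun v => P (x :: v))]
    · have h1 : R S (x :: (u ++ b :: s)) = 0 := by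
        have e1 : lv a (u ++ b :: s) = lv a u + K + 1 := by
          rw [lv_append, lv_cons_ne hb]; omega
        have e2 : lv a (u ++ b :: s) ≤ lv a (x :: (u ++ b :: s)) := by
          simp [lv]
        rw [R, hK _ (by omega), hK _ (by omega)]
        ring
      rw [h1]; ring
    · intro v hv
      apply hP
      simp only [lv] at hv ⊢
      omega

variable [Fintype α]

/-- the data of an integer factorization, normalized -/
structure Dat (a : α) (n : ℕ) (c P S : MonoidAlgebra ℤ (FreeMonoid α)) : Prop where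
  nn : NN c
  c0 : fn c [] = 0
  cn : fn c (aw a n) = 1
  E : c - 1 = P * (Alph α - 1) * S
  P0 : fn P [] = 1

section dat

variable {a : α} {n : ℕ} {c P S : MonoidAlgebra ℤ (FreeMonoid α)}

lemma Dat.fact (h : Dat a n c P S) (w : List α) :
    fn c w - (if w = [] then 1 else 0) = conv w (fn P) (R (fn S)) := by
  rw [← fn_one, ← fn_sub, h.E, mul_assoc, fn_mul, fn_R]

lemma Dat.S0 (h : Dat a n c P S) : fn S [] = 1 := by
  have := h.fact []
  rw [conv, R, h.c0, h.P0] at this
  simp at this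
  linarith

lemma Dat.rev (h : Dat a n c P S) : Dat a n (rev c) (rev S) (rev P) := by
  refine ⟨?_, ?_, ?_, ?_, ?_⟩
  · intro w; rw [fn_rev]; exact h.nn _
  · rw [fn_rev]; exact h.c0
  · rw [fn_rev]
    have : (aw a n).reverse = aw a n := by simp [aw]
    rw [this]; exact h.cn
  · rw [← rev_one, ← rev_sub, h.E, rev_mul, rev_mul, rev_sub, rev_Alph, rev_one, mul_assoc]
  · rw [fn_rev]; exact h.S0

lemma Dat.c_aw (h : Dat a n c P S) (l : ℕ) : fn c (aw a l) = if l = n then 1 else 0 := by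
  obtain ⟨Nc, hNc⟩ := exists_bound c
  obtain ⟨Np, hNp⟩ := exists_bound P
  obtain ⟨Ns, hNs⟩ := exists_bound S
  obtain ⟨q, hq⟩ := exists_poly (aser a (fn c)) Nc
    (by intro i hi; rw [coeff_aser]; exact hNc _ (by simpa using hi))
  obtain ⟨p, hp⟩ := exists_poly (aser a (fn P)) Np
    (by intro i hi; rw [coeff_aser]; exact hNp _ (by simpa using hi))
  obtain ⟨s, hs⟩ := exists_poly (aser a (fn S)) Ns
    (by intro i hi; rw [coeff_aser]; exact hNs _ (by simpa using hi))
  have hqc : ∀ i, q.coeff i = fn c (aw a i) := by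
    intro i; rw [← Polynomial.coeff_coe, hq, coeff_aser]
  have e1 : aser a (fn c) - 1 = aser a (fn P) * ((PowerSeries.X - 1) * aser a (fn S)) := by
    ext l
    rw [← aser_R, ← conv_aw, ← h.fact, map_sub, coeff_aser, PowerSeries.coeff_one]
    have : aw a l = [] ↔ l = 0 := by
      constructor
      · intro h0
        have := congrArg List.length h0
        simpa using this
      · intro h0; rw [h0]; rfl
    simp only [this]
  have e2 : q - 1 = p * ((Polynomial.X - 1) * s) := by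
    rw [← hq, ← hp, ← hs] at e1
    have h2 : ((q - 1 : Polynomial ℤ) : PowerSeries ℤ) =
        ((p * ((Polynomial.X - 1) * s) : Polynomial ℤ) : PowerSeries ℤ) := by
      push_cast
      exact e1
    exact Polynomial.coe_injective ℤ h2
  have e3 : q.eval 1 = 1 := by
    have := congrArg (Polynomial.eval 1) e2
    simp at this
    linarith
  have e4 : q - Polynomial.X ^ n = 0 := by
    by_contra hne
    have h5 := eval_one_pos (q - Polynomial.X ^ n) (by
      intro i
      rw [Polynomial.coeff_sub, Polynomial.coeff_X_pow, hqc]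
      by_cases hi : i = n
      · subst hi; rw [h.cn]; simp
      · rw [if_neg hi]
        have := h.nn (aw a i)
        linarith) hne
    rw [Polynomial.eval_sub, e3] at h5
    simp at h5
  have e5 : q = Polynomial.X ^ n := sub_eq_zero.mp e4
  rw [← hqc, e5, Polynomial.coeff_X_pow]

lemma Dat.npos (h : Dat a n c P S) : 1 ≤ n := by
  rcases Nat.eq_zero_or_pos n with h0 | h0
  · exfalso
    have h1 := h.cn
    rw [h0, aw_zero, h.c0] at h1
    norm_num at h1
  · exact h0

lemma Dat.fac (h : Dat a n c P S) (hP : ∀ u, 2 ≤ lv a u → fn P u = 0) :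
    Fac a n (fn c) (fn P) (fn S) := by
  refine ⟨h.nn, h.P0, h.S0, h.npos, ?_, h.c_aw, hP, ?_⟩
  · intro w hw
    have := h.fact w
    rw [if_neg hw, sub_zero] at this
    exact this
  · obtain ⟨Np, hNp⟩ := exists_bound P
    obtain ⟨Ns, hNs⟩ := exists_bound S
    exact ⟨max Np Ns, fun w hw => ⟨hNp w (le_trans (le_max_left _ _) hw),
      hNs w (le_trans (le_max_right _ _) hw)⟩⟩

lemma Dat.topP (h : Dat a n c P S) : ∃ K, (∀ w, K < lv a w → fn P w = 0) ∧
    ∃ s, lv a s = K ∧ fn P s ≠ 0 :=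
  exists_top a _ (exists_bound P) ⟨[], by rw [h.P0]; norm_num⟩

lemma Dat.topS (h : Dat a n c P S) : ∃ K, (∀ w, K < lv a w → fn S w = 0) ∧
    ∃ s, lv a s = K ∧ fn S s ≠ 0 :=
  exists_top a _ (exists_bound S) ⟨[], by rw [h.S0]; norm_num⟩

lemma Dat.top (h : Dat a n c P S) {b : α} (hb : b ≠ a) {p K d : ℕ}
    (hc : ∀ w, fn c w ≠ 0 → lv a w ≤ d)
    (hp : ∀ w, p < lv a w → fn P w = 0) (hpne : ∃ s, lv a s = p ∧ fn P s ≠ 0)
    (hK : ∀ w, K < lv a w → fn S w = 0) (hKne : ∃ s, lv a s = K ∧ fn S s ≠ 0) :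
    p + K + 1 ≤ d := by
  obtain ⟨u, hu, hPu⟩ := hpne
  obtain ⟨s, hs, hSs⟩ := hKne
  have h1 := h.fact (u ++ b :: s)
  rw [if_neg (by simp), sub_zero, conv_top hb (fn S) hK hs u (fn P) (by rw [hu]; exact hp)] at h1
  have h2 := hc (u ++ b :: s) (by rw [h1]; exact mul_ne_zero hPu hSs)
  rw [lv_append, lv_cons_ne hb] at h2
  omega

lemma level_rev (a : α) (x : MonoidAlgebra ℤ (FreeMonoid α)) (K : ℕ)
    (h : ∀ w, K < lv a w → fn x w = 0) : ∀ w, K < lv a w → fn (H42Sch.rev x) w = 0 := by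
  intro w hw
  rw [fn_rev]
  exact h _ (by rw [lv_reverse]; exact hw)

lemma level_rev' (a : α) (x : MonoidAlgebra ℤ (FreeMonoid α)) (K : ℕ)
    (h : ∃ w, lv a w = K ∧ fn x w ≠ 0) : ∃ w, lv a w = K ∧ fn (H42Sch.rev x) w ≠ 0 := by
  obtain ⟨w, hw1, hw2⟩ := h
  refine ⟨w.reverse, by rw [lv_reverse, hw1], ?_⟩
  rw [fn_rev, List.reverse_reverse]
  exact hw2

lemma nn_of_rev {x : MonoidAlgebra ℤ (FreeMonoid α)} (h : ∀ w, 0 ≤ fn (H42Sch.rev x) w)
    (w : List α) : 0 ≤ fn x w := by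
  have := h w.reverse
  rwa [fn_rev, List.reverse_reverse] at this

lemma le_of_rev {x : MonoidAlgebra ℤ (FreeMonoid α)} (h : ∀ w, fn (H42Sch.rev x) w ≤ 1)
    (w : List α) : fn x w ≤ 1 := by
  have := h w.reverse
  rwa [fn_rev, List.reverse_reverse] at this

/-- **Four letters**, normalized form -/
theorem Dat.four (h : Dat a n c P S) {b : α} (hb : b ≠ a) (hN : PropN n)
    (hc : ∀ w, fn c w ≠ 0 → lv a w ≤ 4) : (∀ w, 0 ≤ fn P w) ∧ (∀ w, 0 ≤ fn S w) := by
  obtain ⟨p, hp, hpne⟩ := h.topP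
  obtain ⟨K, hK, hKne⟩ := h.topS
  have hpK := h.top hb hc hp hpne hK hKne
  by_cases hcase : p ≤ 1 ∧ (K ≤ 2 ∨ p = 0)
  · obtain ⟨hp1, hK2⟩ := hcase
    have hF := h.fac (fun u hu => hp u (by omega))
    refine hF.main hb hN hK hKne ?_
    rcases hK2 with h1 | h1
    · exact Or.inl h1
    · right
      intro u hu
      exact hp u (by omega)
  · have hF := h.rev.fac (fun u hu => level_rev a S K hK u (by omega))
    have := hF.main hb hN (level_rev a P p hp) (level_rev' a P p hpne) (by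
      by_cases h1 : p ≤ 2
      · exact Or.inl h1
      · right
        intro u hu
        exact level_rev a S K hK u (by omega))
    exact ⟨nn_of_rev this.2, nn_of_rev this.1⟩

/-- **Reduction**, normalized form -/
theorem Dat.red (h : Dat a n c P S) {b : α} (hb : b ≠ a)
    (hP0 : ∀ i, 0 ≤ fn P (aw a i)) (hS0 : ∀ i, 0 ≤ fn S (aw a i))
    (hc : ∀ w, fn c w ≠ 0 → lv a w ≤ 4) : (∀ w, 0 ≤ fn P w) ∧ (∀ w, 0 ≤ fn S w) := by
  obtain ⟨p, hp, hpne⟩ := h.topP
  obtain ⟨K, hK, hKne⟩ := h.topS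
  have hpK := h.top hb hc hp hpne hK hKne
  by_cases hcase : p ≤ 1 ∧ (K ≤ 2 ∨ p = 0)
  · obtain ⟨hp1, hK2⟩ := hcase
    have hF := h.fac (fun u hu => hp u (by omega))
    refine hF.reduction hb hK hKne ?_ hP0 hS0
    rcases hK2 with h1 | h1
    · exact Or.inl h1
    · right
      intro u hu
      exact hp u (by omega)
  · have hF := h.rev.fac (fun u hu => level_rev a S K hK u (by omega))
    have hra : ∀ i, (aw a i).reverse = aw a i := by intro i; simp [aw]
    have := hF.reduction hb (level_rev a P p hp) (level_rev' a P p hpne) (by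
      by_cases h1 : p ≤ 2
      · exact Or.inl h1
      · right
        intro u hu
        exact level_rev a S K hK u (by omega))
      (by intro i; rw [fn_rev, hra]; exact hS0 i) (by intro i; rw [fn_rev, hra]; exact hP0 i)
    exact ⟨nn_of_rev this.2, nn_of_rev this.1⟩

/-- **Half positivity**, normalized form, `P` of level at most one -/
theorem Dat.halfP (h : Dat a n c P S) {b : α} (hb : b ≠ a)
    (hP : ∀ u, 2 ≤ lv a u → fn P u = 0) :
    ((∀ w, 0 ≤ fn S w) ∧ ∀ w, fn S w ≤ 1) ∨ ((∀ w, 0 ≤ fn P w) ∧ ∀ w, fn P w ≤ 1) := by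
  obtain ⟨K, hK, hKne⟩ := h.topS
  rcases (h.fac hP).half_main hb hK hKne with h1 | h1 | h1
  · exact Or.inl h1
  · exact Or.inr h1
  · have := le_one_of_nonneg h.nn h.c0 h1.1 h1.2 h.P0 h.S0 h.E
    exact Or.inl ⟨h1.2, this.2⟩

end dat

end H42Sch
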