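import Pool.Agent.H42Sch.Core

set_option autoImplicit false
set_option linter.unusedSectionVars false
set_option linter.unusedSimpArgs false
set_option linter.unnecessarySimpa false

namespace H42Sch

open PowerSeries

variable {α : Type} [DecidableEq α]

/-- integer sequence lemma -/
lemma seq_lemma (s c : ℕ → ℤ) (π : ℤ) (N : ℕ) (h0 : s 0 = 1) (hc : ∀ m, 0 ≤ c m)
    (hN : ∀ m, N ≤ m → s m = 0) (h1 : 1 - π = c 1 + s 1)
    (h2 : ∀ m, s (m+1) + π * (s m - s (m+1)) = c (m+2) + s (m+2)) :
    ∃ m, c (m+1) = 1 ∧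
      ((π = 0 ∧ ∀ j, j ≤ m → s j = 1) ∨ (π = 1 ∧ ∃ m', m = m' + 1 ∧ s m = 0 ∧ s m' = 1)) := by
  classical
  let u : ℕ → ℤ := fun m => match m with
    | 0 => 1
    | (m+1) => s (m+1) + π * s m
  have u0 : u 0 = 1 := rfl
  have us : ∀ m, u (m+1) = s (m+1) + π * s m := fun m => rfl
  have ud : ∀ m, u m - u (m+1) = c (m+1) := by
    intro m
    cases m with
    | zero => rw [u0, us]; rw [h0]; linarith
    | succ m => rw [us, us]; have := h2 m; linarith
  have uN : ∀ m, N + 1 ≤ m → u m = 0 := by
    intro m hm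
    obtain ⟨m', rfl⟩ : ∃ m', m = m' + 1 := ⟨m - 1, by omega⟩
    rw [us, hN (m'+1) (by omega), hN m' (by omega)]; ring
  have unonneg : ∀ k m, N + 1 ≤ m + k → 0 ≤ u m := by
    intro k
    induction k with
    | zero => intro m hm; rw [uN m (by omega)]
    | succ k ih =>
      intro m hm
      have e1 := ih (m+1) (by omega)
      have e2 := ud m
      have e3 := hc (m+1)
      linarith
  have unn : ∀ m, 0 ≤ u m := fun m => unonneg (N+1) m (by omega)
  have ule : ∀ m, u m ≤ 1 := by
    intro m
    induction m with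
    | zero => rw [u0]
    | succ m ih =>
      have e2 := ud m
      have e3 := hc (m+1)
      linarith
  have hex : ∃ m, u m ≠ 1 := ⟨N+1, by rw [uN (N+1) le_rfl]; norm_num⟩
  obtain ⟨M, hM1, hM2⟩ : ∃ M, u M ≠ 1 ∧ ∀ m, m < M → u m = 1 := by
    refine ⟨Nat.find hex, Nat.find_spec hex, ?_⟩
    intro m hm
    have := Nat.find_min hex hm
    push Not at this
    exact this
  have hMpos : M ≠ 0 := by
    intro h; rw [h] at hM1; exact hM1 u0
  obtain ⟨m, rfl⟩ : ∃ m, M = m + 1 := ⟨M - 1, by omega⟩
  have hM0 : u (m+1) = 0 := by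
    have e1 := unn (m+1)
    have e2 := ule (m+1)
    omega
  have hzero : ∀ k, m + 1 ≤ k → u k = 0 := by
    intro k hk
    induction k, hk using Nat.le_induction with
    | base => exact hM0
    | succ k hk ih =>
      have e1 := unn (k+1)
      have e2 := ud k
      have e3 := hc (k+1)
      linarith
  have hcm : c (m+1) = 1 := by
    have e1 := ud m
    rw [hM2 m (by omega), hM0] at e1
    linarith
  refine ⟨m, hcm, ?_⟩
  by_cases hπ : π = 0
  · left
    refine ⟨hπ, ?_⟩
    intro j hj
    cases j with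
    | zero => exact h0
    | succ j =>
      have e1 := hM2 (j+1) (by omega)
      rw [us, hπ] at e1
      linarith
  · right
    have hs : ∀ k j, m ≤ j → N ≤ j + k → s j = 0 := by
      intro k
      induction k with
      | zero => intro j _ hj; exact hN j (by omega)
      | succ k ih =>
        intro j hj hk
        have e1 := ih (j+1) (by omega) (by omega)
        have e2 := hzero (j+1) (by omega)
        rw [us, e1] at e2
        have e3 : π * s j = 0 := by linarith
        rcases mul_eq_zero.mp e3 with h | h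
        · exact absurd h hπ
        · exact h
    have hsm : s m = 0 := hs N m le_rfl (by omega)
    have hmpos : m ≠ 0 := by
      intro h; rw [h, h0] at hsm; norm_num at hsm
    obtain ⟨m', rfl⟩ : ∃ m', m = m' + 1 := ⟨m - 1, by omega⟩
    have hmod : ∀ j, j ≤ m' + 1 → π ∣ s j - 1 := by
      intro j hj
      cases j with
      | zero => rw [h0]; simp
      | succ j =>
        have e1 := hM2 (j+1) (by omega)
        rw [us] at e1
        exact ⟨- s j, by linarith⟩
    have hd : π ∣ 1 := by
      have := hmod (m'+1) le_rfl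
      rw [hsm] at this
      simpa using this
    rcases Int.isUnit_iff.mp (isUnit_of_dvd_one hd) with h | h
    · refine ⟨h, m', rfl, hsm, ?_⟩
      have e1 := hM2 (m'+1) (by omega)
      rw [us, hsm, h] at e1
      linarith
    · exfalso
      have hpos : ∀ j, j ≤ m' + 1 → 1 ≤ s j := by
        intro j
        induction j with
        | zero => intro _; rw [h0]
        | succ j ih =>
          intro hj
          have e0 := ih (by omega)
          have e1 := hM2 (j+1) (by omega)
          rw [us, h] at e1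
          linarith
      have := hpos (m'+1) le_rfl
      rw [hsm] at this
      norm_num at this

/-- finitely supported series are polynomials -/
lemma exists_poly (V : ℤ⟦X⟧) (N : ℕ) (h : ∀ i, N ≤ i → coeff i V = 0) :
    ∃ p : Polynomial ℤ, (p : ℤ⟦X⟧) = V := by
  refine ⟨trunc N V, ?_⟩
  ext i
  rw [Polynomial.coeff_coe, coeff_trunc]
  split_ifs with hi
  · rfl
  · rw [h i (by omega)]

lemma eval_one_nonneg (p : Polynomial ℤ) (h : ∀ i, 0 ≤ p.coeff i) : 0 ≤ p.eval 1 := by
  rw [Polynomial.eval_eq_sum_range]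
  apply Finset.sum_nonneg
  intro i _
  simpa using h i

lemma eval_one_pos (p : Polynomial ℤ) (h : ∀ i, 0 ≤ p.coeff i) (hp : p ≠ 0) :
    1 ≤ p.eval 1 := by
  have h1 : ∃ i, p.coeff i ≠ 0 := by
    by_contra hcon
    push Not at hcon
    exact hp (Polynomial.ext (by simpa using hcon))
  obtain ⟨i, hi⟩ := h1
  have hi' : 1 ≤ p.coeff i := by have := h i; omega
  refine le_trans hi' ?_
  rw [Polynomial.eval_eq_sum_range]
  have hmem : i ∈ Finset.range (p.natDegree + 1) := by
    rw [Finset.mem_range]
    have := Polynomial.le_natDegree_of_ne_zero hi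
    omega
  have := Finset.single_le_sum (f := fun i => p.coeff i * 1 ^ i) (s := Finset.range (p.natDegree + 1))
    (fun j _ => by simpa using h j) hmem
  simpa using this

/-- evaluation at one of a shifted row -/
lemma key_eval (V G : ℤ⟦X⟧) (s : ℤ) (N : ℕ) (hV : ∀ i, N ≤ i → coeff i V = 0)
    (hG : ∀ i, N ≤ i → coeff i G = 0) :
    ∃ v g : Polynomial ℤ, (v : ℤ⟦X⟧) = V ∧ (g : ℤ⟦X⟧) = G ∧
      (((v * (Polynomial.C s - (1 - Polynomial.X) * g) : Polynomial ℤ)) : ℤ⟦X⟧) =
        V * (C s - (1 - X) * G) ∧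
      (v * (Polynomial.C s - (1 - Polynomial.X) * g)).eval 1 = v.eval 1 * s := by
  obtain ⟨v, hv⟩ := exists_poly V N hV
  obtain ⟨g, hg⟩ := exists_poly G N hG
  refine ⟨v, g, hv, hg, ?_, ?_⟩
  · rw [← hv, ← hg]
    push_cast
    simp
  · simp

lemma level_zero {a : α} {u : List α} (h : lv a u = 0) : ∃ l, u = aw a l := by
  rcases word_cases a u with h1 | ⟨b, l, v, hb, rfl⟩
  · exact h1
  · rw [lv_abw hb] at h; omega

lemma level_succ {a : α} {u : List α} {k : ℕ} (h : lv a u = k + 1) :
    ∃ b l v, b ≠ a ∧ u = abw a b l v ∧ lv a v = k := by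
  rcases word_cases a u with ⟨l, rfl⟩ | ⟨b, l, v, hb, rfl⟩
  · rw [lv_aw] at h; omega
  · rw [lv_abw hb] at h
    exact ⟨b, l, v, hb, rfl, by omega⟩

lemma level_one {a : α} {u : List α} (h : lv a u = 1) :
    ∃ b i m, b ≠ a ∧ u = abw a b i (aw a m) := by
  obtain ⟨b, l, v, hb, rfl, hv⟩ := level_succ h
  obtain ⟨m, rfl⟩ := level_zero hv
  exact ⟨b, l, m, hb, rfl⟩

lemma bser_eq_zero {a b : α} (hb : b ≠ a) {S : List α → ℤ} {K : ℕ}
    (hK : ∀ w, K < lv a w → S w = 0) {w : List α} (hw : K ≤ lv a w) : bser a b S w = 0 := by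
  ext l
  rw [coeff_bser, hK _ (by rw [lv_abw hb]; omega)]
  simp

section fac

variable {a : α} {n : ℕ} {c P S : List α → ℤ}

/-- the top product -/
lemma Fac.top (h : Fac a n c P S) {K : ℕ} (hK : ∀ w, K < lv a w → S w = 0)
    {b' b : α} (hb' : b' ≠ a) (hb : b ≠ a) (i m : ℕ) {s : List α} (hs : lv a s = K) :
    c (abw a b' i (abw a b m s)) = P (abw a b' i (aw a m)) * S s := by
  rw [h.c_abw hb', hK (abw a b m s) (by rw [lv_abw hb]; omega),
    bser_eq_zero hb' hK (w := abw a b m s) (by rw [lv_abw hb]; omega),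
    theta_abw hb, bser_R, bser_eq_zero hb hK (w := s) (by omega)]
  simp only [mul_zero, sub_zero]
  rw [coeff_mul_C, coeff_mul_C, coeff_pser, mul_zero, zero_add]

/-- the sequence data along powers of `b` -/
lemma Fac.bseq (h : Fac a n c P S) {b : α} (hb : b ≠ a) :
    ∃ m, c (aw b (m+1)) = 1 ∧
      ((P [b] = 0 ∧ ∀ j, j ≤ m → S (aw b j) = 1) ∨
        (P [b] = 1 ∧ ∃ m', m = m' + 1 ∧ S (aw b m) = 0 ∧ S (aw b m') = 1)) := by
  obtain ⟨N, hN⟩ := h.fin
  refine seq_lemma (fun m => S (aw b m)) (fun m => c (aw b m)) (P [b]) N ?_ ?_ ?_ ?_ ?_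
  · simp [h.S_nil]
  · intro m; exact h.c_nonneg _
  · intro m hm; exact (hN _ (by simpa using hm)).2
  · have h1 := h.star hb []
    rw [Y_nil, h.S_nil] at h1
    simp only [aw_succ, aw_zero]
    rw [← h1]
    simp
  · intro m
    have h1 := h.star hb (aw b (m+1))
    rw [aw_succ, Y_b hb] at h1
    simp only [aw_succ]
    rw [← h1]
    simp

lemma Fac.good_p0 (h : Fac a n c P S) {b : α} (hb : b ≠ a)
    (hπ : P [b] = 0) : ∀ w, 0 ≤ Y a S (pser a b P 0) w := by
  obtain ⟨N, hN⟩ := h.fin
  apply nonneg_of_step _ N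
  · intro w hw
    rw [h.star hb, (hN (b :: w) (by simp; omega)).2]
    have := h.c_nonneg (b :: w)
    linarith
  · intro w
    refine ⟨b :: w, by simp, ?_⟩
    rw [Y_b hb, h.star hb w]
    have h0 : coeff 0 (pser a b P 0) = 0 := by
      rw [coeff_pser]; exact hπ
    rw [h0]
    have := h.c_nonneg (b :: w)
    linarith

/-- common sign of the top parts -/
lemma Fac.sign (h : Fac a n c P S) {b : α} (hb : b ≠ a) {K : ℕ}
    (hK : ∀ w, K < lv a w → S w = 0) (hKne : ∃ s, lv a s = K ∧ S s ≠ 0)
    (hPne : ∃ u, lv a u = 1 ∧ P u ≠ 0) :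
    (∀ u, lv a u = 1 → 0 ≤ P u) ∧ (∀ s, lv a s = K → 0 ≤ S s) := by
  have hprod : ∀ u s, lv a u = 1 → lv a s = K → 0 ≤ P u * S s := by
    intro u s hu hs
    obtain ⟨b', i, m, hb', rfl⟩ := level_one hu
    rw [← h.top hK hb' hb i m hs]
    exact h.c_nonneg _
  obtain ⟨u0, hu0, hPu0⟩ := hPne
  obtain ⟨s0, hs0, hSs0⟩ := hKne
  rcases lt_or_gt_of_ne hPu0 with hneg | hpos
  · exfalso
    have hS : ∀ s, lv a s = K → S s ≤ 0 := by
      intro s hs
      have := hprod u0 s hu0 hs
      by_contra hcon
      push Not at hcon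
      have := mul_neg_of_neg_of_pos hneg hcon
      linarith
    have hS0 : S s0 < 0 := lt_of_le_of_ne (hS s0 hs0) hSs0
    have hP : ∀ u, lv a u = 1 → P u ≤ 0 := by
      intro u hu
      have := hprod u s0 hu hs0
      by_contra hcon
      push Not at hcon
      have := mul_neg_of_pos_of_neg hcon hS0
      linarith
    have hπ : P [b] = 0 := by
      obtain ⟨m, _, h1 | h1⟩ := h.bseq hb
      · exact h1.1
      · have := hP [b] (by rw [lv_cons_ne hb]; rfl)
        rw [h1.1] at this
        norm_num at this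
    have hY := h.good_p0 hb hπ
    obtain ⟨N, hN⟩ := h.fin
    have hVne : pser a b P 0 ≠ 0 := by
      intro h0
      have := hY s0
      rw [h0, Y_zero] at this
      linarith
    have hstep : ∀ j w, K ≤ lv a w + j → S w ≤ 0 := by
      intro j
      induction j with
      | zero =>
        intro w hw
        rcases Nat.eq_or_lt_of_le hw with h1 | h1
        · exact hS w (by omega)
        · rw [hK w (by omega)]
      | succ j ih =>
        intro w hw
        obtain ⟨v, g, hv, hg, he, hev⟩ := key_eval (pser a b P 0) (bser a b S w) (S w) N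
          (by
            intro i hi
            rw [coeff_pser]
            exact (hN _ (by simp; omega)).1)
          (by
            intro i hi
            rw [coeff_bser]
            exact (hN _ (by simp; omega)).2)
        have h1 : ∀ i, 0 ≤ (g + v * (Polynomial.C (S w) - (1 - Polynomial.X) * g)).coeff i := by
          intro i
          rw [← Polynomial.coeff_coe, Polynomial.coe_add, he, hg, ← Y_abw hb]
          exact hY _
        have h2 := eval_one_nonneg _ h1
        rw [Polynomial.eval_add, hev] at h2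
        have h3 : 0 ≤ (-g).eval 1 := by
          apply eval_one_nonneg
          intro i
          rw [Polynomial.coeff_neg, ← Polynomial.coeff_coe, hg, coeff_bser]
          have := ih (abw a b i w) (by rw [lv_abw hb]; omega)
          linarith
        have h4 : 1 ≤ (-v).eval 1 := by
          apply eval_one_pos
          · intro i
            rw [Polynomial.coeff_neg, ← Polynomial.coeff_coe, hv, coeff_pser]
            have := hP (abw a b 0 (aw a i)) (by rw [lv_abw hb, lv_aw])
            linarith
          · intro h0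
            apply hVne
            rw [← hv, neg_eq_zero.mp h0]
            simp
        rw [Polynomial.eval_neg] at h3 h4
        nlinarith
    have := hstep K [] (by omega)
    rw [h.S_nil] at this
    norm_num at this
  · have hS : ∀ s, lv a s = K → 0 ≤ S s := by
      intro s hs
      have := hprod u0 s hu0 hs
      exact nonneg_of_mul_nonneg_right this hpos
    have hS0 : 0 < S s0 := lt_of_le_of_ne (hS s0 hs0) (Ne.symm hSs0)
    refine ⟨?_, hS⟩
    intro u hu
    have := hprod u s0 hu hs0
    exact nonneg_of_mul_nonneg_left this hS0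

end fac

end H42Sch
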